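import Mathlib
import Pool.Agent.helper48.PR.SpecH
import Pool.Agent.helper5.PR.SpecZ

/-!
Project va (MP_a2a22c_al): solvable subgroups of thin subgroups of `SL(3, ℤ)` and `SL(4, ℤ)`

FINAL (`VTH_stmt`): `n = 3` or `4`, `H ≤ SL(n, ℤ)` Zariski dense, `P ≤ H` solvable and not virtually abelian. Then `H` has
finite index.

Row `va:XX` proves `theorem XX (hYY : YY_stmt) ... : XX_stmt` (the hypotheses are in its row) in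
`Pool/Agent/<seat>/VA/XX.lean`, `import Pool.Agent.helper38.VA.Spec`, namespace `Pool.Agent.VA`, auxiliary lemmas
with the prefix `XX_`. `C2_stmt`, `HN_stmt`, `HJ_stmt`, `LRK1_stmt`, `Z_MAL_stmt`, `Z_UNIP_stmt`, `Heis`, `TriS`, `SLZ`, `stdM` are in
the namespace `Pool.Agent.PR`; `ZDense`, `IsPoly`, `NZ`, `final_coef`, `tv_data`, `Cong` in `Pool.Agent.H48SL`
(`Pool/Agent/helper48/SLn/*.lean`). `IsNilpotent.exp` is the exponential of Mathlib (`exp_eq_sum`, `exp_add_of_commute`,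
`map_exp`).

Plan. `P` gives (SOL) a Heisenberg group (then F2), or an abelian unipotent group `N` and `b` normalising it, no power of `b`
centralising it; (LGS, FIT, SIE) a space `W` of commuting nilpotent matrices on which `b` acts strongly irreducibly, every
element of `W` having a multiple whose exponential is in `H` (`SI H W b`). If `W` contains a matrix of rank one: F3. This is so
for `n = 3` (CL3). For `n = 4` the other cases are the K-type (`X Y = 0` for all `X, Y ∈ W`, CLK) and the D-type (CLD). K-type: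
KTH, for all `n`. D-type: DTH.
-/

set_option autoImplicit false

namespace Pool.Agent.VA

open Matrix Module Pool.Agent.PR Pool.Agent.H48SL

/-- rational `n x n` matrices -/
abbrev MQ (n : ℕ) : Type := Matrix (Fin n) (Fin n) ℚ

/-- rational `2 x 2` matrices -/
abbrev M2 : Type := Matrix (Fin 2) (Fin 2) ℚ

/-- an integer matrix as a rational matrix -/
def cq {m k : ℕ} (A : Matrix (Fin m) (Fin k) ℤ) : Matrix (Fin m) (Fin k) ℚ := A.map (Int.castRingHom ℚ)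

theorem stdM_eq_cq {n : ℕ} (b : SLZ n) : stdM ℚ b = cq (b : Matrix (Fin n) (Fin n) ℤ) := rfl

/-- conjugation of rational matrices by `b` -/
def cj {n : ℕ} (b : SLZ n) : MQ n →ₗ[ℚ] MQ n :=
  (LinearMap.mulLeft ℚ (stdM ℚ b)) ∘ₗ (LinearMap.mulRight ℚ (stdM ℚ b⁻¹))

theorem cj_apply {n : ℕ} (b : SLZ n) (X : MQ n) : cj b X = stdM ℚ b * X * stdM ℚ b⁻¹ := by
  simp [cj, mul_assoc]

theorem cj_one {n : ℕ} : cj (1 : SLZ n) = LinearMap.id := by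
  apply LinearMap.ext
  intro X
  rw [cj_apply, inv_one, stdM_one, Matrix.one_mul, Matrix.mul_one]
  rfl

theorem cj_mul {n : ℕ} (a b : SLZ n) (X : MQ n) : cj (a * b) X = cj a (cj b X) := by
  rw [cj_apply, cj_apply, cj_apply, _root_.mul_inv_rev, stdM_mul, stdM_mul]
  simp only [mul_assoc]

theorem cj_pow {n : ℕ} (b : SLZ n) (j : ℕ) : cj (b ^ j) = (cj b) ^ j := by
  induction j with
  | zero => rw [pow_zero, pow_zero, cj_one]; rfl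
  | succ j ih =>
    apply LinearMap.ext
    intro X
    rw [pow_succ, pow_succ, cj_mul, ih]
    rfl

theorem cj_mul_apply {n : ℕ} (b : SLZ n) (X Y : MQ n) : cj b (X * Y) = cj b X * cj b Y := by
  rw [cj_apply, cj_apply, cj_apply]
  have h := stdM_inv_mul ℚ b
  calc stdM ℚ b * (X * Y) * stdM ℚ b⁻¹ = stdM ℚ b * X * 1 * Y * stdM ℚ b⁻¹ := by
        rw [mul_one]; simp only [mul_assoc]
    _ = stdM ℚ b * X * stdM ℚ b⁻¹ * (stdM ℚ b * Y * stdM ℚ b⁻¹) := by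
        rw [← h]; simp only [mul_assoc]

/-- `exp X` is (the matrix of) an element of `H` -/
def EX {n : ℕ} (H : Subgroup (SLZ n)) (X : MQ n) : Prop := ∃ a ∈ H, stdM ℚ a = IsNilpotent.exp X

/-- `P` is not virtually abelian -/
def NVA {G : Type} [Group G] (P : Subgroup G) : Prop :=
  ∀ B : Subgroup G, B ≤ P → (∀ x ∈ B, ∀ y ∈ B, x * y = y * x) → B.relIndex P = 0

/-- `H` contains a Heisenberg group of rank three -/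
def HIn {G : Type} [Group G] (H : Subgroup G) : Prop :=
  ∃ x ∈ H, ∃ y ∈ H, ∃ z ∈ H, x * z = z * x ∧ y * z = z * y ∧ x * y = z * (y * x) ∧
    ∀ k : ℕ, 0 < k → z ^ k ≠ 1

/-- `W` is a space of commuting nilpotent matrices with logarithms of elements of `H`, and `b ∈ H` acts strongly
irreducibly on `W` -/
structure SI {n : ℕ} (H : Subgroup (SLZ n)) (W : Submodule ℚ (MQ n)) (b : SLZ n) : Prop where
  mem : b ∈ H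
  two : 2 ≤ finrank ℚ W
  nil : ∀ X ∈ W, IsNilpotent X
  com : ∀ X ∈ W, ∀ Y ∈ W, X * Y = Y * X
  log : ∀ X ∈ W, ∃ k : ℕ, 0 < k ∧ EX H ((k : ℚ) • X)
  sta : ∀ X ∈ W, cj b X ∈ W
  irr : ∀ j : ℕ, 0 < j → ∀ W' : Submodule ℚ (MQ n), W' ≤ W → W' ≠ ⊥ →
    (∀ X ∈ W', cj (b ^ j) X ∈ W') → W' = W

/-! Reduction to `SI` -/

/-- **CPN** (a rational number whose powers have bounded denominators). `c = u / v` in lowest terms. For `i ≥ 0` `m q u ^ i / v ^ i` is an integer; write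
`m q = s` (the case `i = 0`: an integer `s ≠ 0`); `v ^ i` divides `s u ^ i`, so it divides `s`, for all `i`: `v = ± 1`. For `i < 0`: `u = ± 1`. -/
def CPN_stmt : Prop := ∀ (c q : ℚ) (m : ℤ), c ≠ 0 → q ≠ 0 → m ≠ 0 →
  (∀ i : ℤ, ∃ z : ℤ, (m : ℚ) * (c ^ i * q) = z) → c = 1 ∨ c = -1

/-- **EIG** (from CPN). Some nonzero entry `q` of the vector (matrix): by induction `b ^ i` multiplies the vector by `c ^ i` (`i ∈ ℤ`; `c ≠ 0` since `b` is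
invertible), and `b ^ i v` has the denominators of `v`: the product `m` of the denominators of the entries of `v` works. -/
def EIG_stmt : Prop := ∀ (n : ℕ) (b : SLZ n) (c : ℚ),
  (∀ v : Fin n → ℚ, v ≠ 0 → stdM ℚ b *ᵥ v = c • v → c = 1 ∨ c = -1) ∧
  (∀ v : Fin n → ℚ, v ≠ 0 → v ᵥ* stdM ℚ b = c • v → c = 1 ∨ c = -1) ∧
  (∀ X : MQ n, X ≠ 0 → cj b X = c • X → c = 1 ∨ c = -1)

/-- **MK** (Minkowski). Strong induction on `j`: `j = 1` is clear; `j = p i`, `p` prime: `S = T ^ i` also satisfies the hypothesis, `(S ^ p) v = v`; if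
`S v = v` use the induction hypothesis for `i`. So let `j = p` be prime, `f = T - 1`, so `f ^ k M ⊆ 3 ^ k M`, and `w = f v`. `(1 + f) ^ p v = v` gives
`p w = - ∑_{l = 2}^p C(p, l) f ^ (l - 1) w`. Claim: `w ∈ 3 ^ k M` for all `k` (so `w = 0`, as `M` is free of finite rank). Induction: let `w ∈ 3 ^ k M`. If `p ≠ 3` the right
side is in `3 ^ (k + 1) M`, so `w` is (`p` is prime to `3`). If `p = 3`: `3 w = - (3 f w + f ^ 2 w) ∈ 3 ^ (k + 2) M`, so `w ∈ 3 ^ (k + 1) M` (no torsion). -/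
def MK_stmt : Prop := ∀ (M : Type) [AddCommGroup M] [Module.Free ℤ M] [Module.Finite ℤ M] (T : M →ₗ[ℤ] M),
  (∀ x, ∃ y, T x - x = (3 : ℤ) • y) → ∀ j : ℕ, 0 < j → ∀ v, (T ^ j) v = v → T v = v

/-- **HSU** (from `HN_stmt`, or directly: `x` in the second centre of `U`, not in the centre). `HN_stmt` for `n = 4` and the group `U`. -/
def HSU_stmt : Prop := ∀ (G : Type) [Group G] (U : Subgroup G), Group.IsNilpotent U →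
  (∀ g ∈ U, g ≠ 1 → ∀ k : ℕ, 0 < k → g ^ k ≠ 1) → (∃ x ∈ U, ∃ y ∈ U, x * y ≠ y * x) → HIn U

/-- **SOL** (from `Z_MAL_stmt`, `Z_UNIP_stmt`, HSU, MK). `Q = P ⊓ Cong (Fin n) 3`, of finite relative index in `P`. `K = AlgebraicClosure ℚ`,
`ρ g = Matrix.toLin' (stdM K g)` on `Q`. Z-MAL: `G₁ ≤ Q` of finite index, triangularisable; Z-UNIP: `U`, normal in `G₁`, contains the commutators, consists of the
unipotent elements, nilpotent. A unipotent element `≠ 1` has infinite order (characteristic zero). If `U` is not abelian: HSU. Otherwise `N = U` (as a subgroup of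
`SLZ n`). If some `b ∈ G₁` has no power `b ^ j`, `j > 0`, commuting with all elements of `N`: done. Otherwise let `b ∈ G₁`, `b ^ j` commute with all `a ∈ N`; MK for
`M` = integer matrices, `T X = b X b⁻¹` (`T X - X = (b - 1) X b⁻¹ + X (b⁻¹ - 1) ∈ 3 M`): `b` commutes with all `a ∈ N`. So `N` is central in `G₁`. `G₁` is not
abelian by `NVA P`; `z = x y x⁻¹ y⁻¹ ≠ 1`, `x, y ∈ G₁`, is in `U`, so central and of infinite order. -/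
def SOL_stmt : Prop := ∀ (n : ℕ) (P : Subgroup (SLZ n)), Group.IsSolvable P → NVA P →
  HIn P ∨ ∃ N : Subgroup (SLZ n), N ≤ P ∧ (∀ a ∈ N, IsNilpotent (stdM ℚ a - 1)) ∧
    (∀ a ∈ N, ∀ a' ∈ N, a * a' = a' * a) ∧
    ∃ b ∈ P, (∀ a ∈ N, b * a * b⁻¹ ∈ N) ∧ ∀ j : ℕ, 0 < j → ∃ a ∈ N, b ^ j * a ≠ a * b ^ j

/-- **LGS** (from `C2_stmt`; the Lie algebra of `N`). `L = {lg (stdM ℚ a) : a ∈ N}`, `W` = its `ℚ`-span. Logarithms of commuting matrices commute (C2, twice), so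
`exp (lg a + lg a') = a a'` and `lg (a a') = lg a + lg a'`: `L` is a subgroup, and every element of `W` has a positive multiple in `L` (clear denominators).
`cj b` is an algebra automorphism, so `exp (cj b X) = b (exp X) b⁻¹` (`IsNilpotent.map_exp`) and `cj b (lg a) = lg (b a b⁻¹)`. -/
def LGS_stmt : Prop := ∀ (n : ℕ) (N : Subgroup (SLZ n)), (∀ a ∈ N, IsNilpotent (stdM ℚ a - 1)) →
  (∀ a ∈ N, ∀ a' ∈ N, a * a' = a' * a) →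
  ∃ W : Submodule ℚ (MQ n), (∀ X ∈ W, IsNilpotent X) ∧ (∀ X ∈ W, ∀ Y ∈ W, X * Y = Y * X) ∧
    (∀ X ∈ W, ∃ k : ℕ, 0 < k ∧ EX N ((k : ℚ) • X)) ∧
    (∀ a ∈ N, ∃ X ∈ W, stdM ℚ a = IsNilpotent.exp X) ∧
    ∀ b : SLZ n, (∀ a ∈ N, b * a * b⁻¹ ∈ N) → ∀ X ∈ W, cj b X ∈ W

/-- **FIT** (linear algebra). Choose `J > 0` with `dim {x ∈ U : T ^ J x = x}` maximal; then `T ^ j x = x`, `j > 0`, `x ∈ U`, implies `T ^ (j J) x = x`, so `T ^ J x = x`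
(maximality for `j J`). `f = T ^ J - 1` on `U`, `d = dim U`: `ker f ^ d` and `U₁ = f ^ d (U)` have intersection `0` (Fitting). If `U₁ = 0`: `f` is nilpotent on `U`, not `0`: take
`x ∈ U` with `f x ≠ 0`, `f (f x) = 0`: first alternative, `j = J`. If `U₁ ≠ 0`: it is `T`-stable and no nonzero vector of `U₁` is fixed by a power of `T`. Among all pairs
`(i, W)`, `i > 0`, `0 ≠ W ≤ U₁`, `T ^ i W ⊆ W` (for example `(1, U₁)`) choose one with `dim W` minimal. -/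
def FIT_stmt : Prop := ∀ (V : Type) [AddCommGroup V] [Module ℚ V] [FiniteDimensional ℚ V] (T : V →ₗ[ℚ] V)
  (U : Submodule ℚ V), (∀ x ∈ U, T x ∈ U) → (∀ j : ℕ, 0 < j → ∃ x ∈ U, (T ^ j) x ≠ x) →
  (∃ j : ℕ, 0 < j ∧ ∃ x ∈ U, (T ^ j) x - x ≠ 0 ∧ (T ^ j) ((T ^ j) x - x) = (T ^ j) x - x) ∨
  ∃ (i : ℕ) (W : Submodule ℚ V), 0 < i ∧ W ≤ U ∧ W ≠ ⊥ ∧ (∀ x ∈ W, (T ^ i) x ∈ W) ∧
    (∀ j : ℕ, 0 < j → ∀ x ∈ W, (T ^ j) x = x → x = 0) ∧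
    ∀ j : ℕ, 0 < j → ∀ W' : Submodule ℚ V, W' ≤ W → W' ≠ ⊥ → (∀ x ∈ W', (T ^ (i * j)) x ∈ W') → W' = W

/-- **SIE** (from `C2_stmt`, LGS, FIT, EIG). LGS gives `U`; FIT for `V = MQ n`, `T = cj b` (`cj_pow`): some `a ∈ N`, `a = exp X`, does not commute with `b ^ j`, so
`cj (b ^ j) X ≠ X`. First alternative of FIT: `Y = cj (b ^ j) X - X ≠ 0` is fixed by `cj (b ^ j)`; `y = exp (k X)`, `z = exp (k Y)`, `x = b ^ j` (`k` a common multiple,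
`exp (k Y) = x y x⁻¹ y⁻¹`): `z` commutes with `x` and `y`, and `z ^ m = exp (m k Y) ≠ 1`: `HIn H`. Second alternative: `b' = b ^ i`, `W`; `dim W ≥ 2` since otherwise `W = ℚ X`,
`cj (b ^ i) X = c • X`, `c = ± 1` by EIG, so `cj (b ^ (2 i)) X = X`, a contradiction. -/
def SIE_stmt : Prop := ∀ (n : ℕ) (H N : Subgroup (SLZ n)) (b : SLZ n), N ≤ H → b ∈ H →
  (∀ a ∈ N, IsNilpotent (stdM ℚ a - 1)) → (∀ a ∈ N, ∀ a' ∈ N, a * a' = a' * a) →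
  (∀ a ∈ N, b * a * b⁻¹ ∈ N) → (∀ j : ℕ, 0 < j → ∃ a ∈ N, b ^ j * a ≠ a * b ^ j) →
  HIn H ∨ ∃ (W : Submodule ℚ (MQ n)) (b' : SLZ n), SI H W b'

/-! Lattices -/

/-- **LTA**. `L = {Z integral : cq Z ∈ W}` is finitely generated (a subgroup of the integer matrices), by `Z_1, ..., Z_r`; `k_i > 0` with `EX H (k_i Z_i)`;
`D = ∏ k_i`: `EX H (D Z_i)` (powers). `X = D Z`, `Z = ∑ m_i Z_i ∈ L`: `exp X = ∏ exp (D Z_i) ^ m_i` (commuting nilpotents). -/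
def LTA_stmt : Prop := ∀ (n : ℕ) (H : Subgroup (SLZ n)) (W : Submodule ℚ (MQ n)), (∀ X ∈ W, IsNilpotent X) →
  (∀ X ∈ W, ∀ Y ∈ W, X * Y = Y * X) → (∀ X ∈ W, ∃ k : ℕ, 0 < k ∧ EX H ((k : ℚ) • X)) →
  ∃ D : ℕ, 0 < D ∧ ∀ X ∈ W, (∃ Z : Matrix (Fin n) (Fin n) ℤ, X = (D : ℚ) • cq Z) → EX H X

/-- **LTB**. `m X` is integral, `m > 0`. `j` = the order of `b` modulo `D m` (`SL(n, ℤ / D m)` is finite; see `exists_pow_cong` or similar in `SLn/Comm.lean`), so `b ^ (j i)` and its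
inverse are `≡ 1` modulo `D m`, and `b ^ (j i) (m X) b ^ (- j i) - m X ≡ 0` modulo `D m`. -/
def LTB_stmt : Prop := ∀ (n : ℕ) (b : SLZ n) (X : MQ n) (D : ℕ), 0 < D →
  ∃ j : ℕ, 0 < j ∧ ∀ i : ℕ, ∃ Z : Matrix (Fin n) (Fin n) ℤ, cj (b ^ (j * i)) X - X = (D : ℚ) • cq Z

/-! Elements of rank one -/

/-- **F1** (from `LRK1_stmt`; compare `LTR_stmt`). `t = 1 + e ⊗ φ` (LRK1 for `t - 1`), `t ≠ 1`, `φ ⬝ᵥ e = 0` (`tv_data`); `u` commutes with `t`: `(u e) ⊗ φ = e ⊗ (φ u)`, so `u e = c e` and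
`φ ⬝ᵥ (u e) = 0`. `final_coef` (`SLn/Final.lean`), second alternative of its last hypothesis. -/
def F1_stmt : Prop := ∀ (n : ℕ), 3 ≤ n → ∀ H : Subgroup (SLZ n), ZDense H → ∀ t ∈ H, ∀ u ∈ H,
  t * u = u * t → (stdM ℚ t - 1).rank = 1 → (∀ k : ℕ, 0 < k → ∀ m : ℤ, u ^ k ≠ t ^ m) → H.FiniteIndex

/-- **F2** (from `HJ_stmt`, F1). HJ for `m = 1`, `G = SLZ n`, `ρ = stdHom n ℚ` (`stdM` is injective): `t = z ^ k` has `rank (t - 1) = 1`; `u = x`: if `x ^ a = z ^ (k m)`, `a > 0`, then `x ^ a` commutes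
with `y`, but `x ^ a y = z ^ a y x ^ a`, so `z ^ a = 1`. -/
def F2_stmt : Prop := ∀ (n : ℕ), 3 ≤ n → n ≤ 4 → ∀ H : Subgroup (SLZ n), ZDense H → HIn H → H.FiniteIndex

/-- **F3** (from `C2_stmt`, F1). `X ∈ W` of rank one and nilpotent: `X * X = 0`, `exp (k X) = 1 + k X = t` has `rank (t - 1) = 1`. `Y ∈ W`, not a multiple of `X`; `u = exp (l Y) ∈ H`; they commute. If
`u ^ a = t ^ m`, `a > 0`, then `exp (a l Y) = exp (m k X)`, and by uniqueness of the logarithm (C2) `a l Y = m k X`, a contradiction. -/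
def F3_stmt : Prop := ∀ (n : ℕ), 3 ≤ n → ∀ H : Subgroup (SLZ n), ZDense H → ∀ W : Submodule ℚ (MQ n),
  2 ≤ finrank ℚ W → (∀ X ∈ W, IsNilpotent X) → (∀ X ∈ W, ∀ Y ∈ W, X * Y = Y * X) →
  (∀ X ∈ W, ∃ k : ℕ, 0 < k ∧ EX H ((k : ℚ) • X)) → (∃ X ∈ W, X.rank = 1) → H.FiniteIndex

/-! Classification -/

/-- the span of all `X v`, `X ∈ W`, `v ∈ I` -/
def WI {n : ℕ} (W : Submodule ℚ (MQ n)) (I : Submodule ℚ (Fin n → ℚ)) : Submodule ℚ (Fin n → ℚ) :=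
  Submodule.span ℚ {u | ∃ X ∈ W, ∃ v ∈ I, u = X *ᵥ v}

/-- `I` is stable under `b` -/
def Sta {n : ℕ} (b : SLZ n) (I : Submodule ℚ (Fin n → ℚ)) : Prop := ∀ v ∈ I, stdM ℚ b *ᵥ v ∈ I

/-- **CLA**. (1): `b (X v) = (cj b X) (b v)`. (2): `b I = I` by dimension, so `b⁻¹ I ⊆ I`; `W' = {X ∈ W : X I ⊆ K}` is stable under `cj b` and not `0`: `irr` for `j = 1`. -/
def CLA_stmt : Prop := ∀ (n : ℕ) (H : Subgroup (SLZ n)) (W : Submodule ℚ (MQ n)) (b : SLZ n), SI H W b →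
  (∀ I : Submodule ℚ (Fin n → ℚ), Sta b I → Sta b (WI W I)) ∧
  ∀ I K : Submodule ℚ (Fin n → ℚ), Sta b I → Sta b K → (∃ X ∈ W, X ≠ 0 ∧ ∀ v ∈ I, X *ᵥ v ∈ K) →
    ∀ X ∈ W, ∀ v ∈ I, X *ᵥ v ∈ K

/-- **CLB** (commuting nilpotent operators on a space of dimension at most two). Suppose `X ≠ 0` on `I` for some `X ∈ W` (otherwise clear, `W ≠ 0`); so `dim I = 2`, `X I = ℚ e = ker X ∩ I` (`X` is nilpotent on
`I`). `Y ∈ W` commutes with `X`: it preserves `ℚ e`, `Y e = 0`, and `Y I ⊆ ℚ e` (nilpotent on `I / ℚ e`). With `I = ⟨e, f⟩`, `X f = x e`, `x ≠ 0`, `Y f = y e`: `x Y - y X` is `0` on `I`; choose `Y` not a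
multiple of `X`. -/
def CLB_stmt : Prop := ∀ (n : ℕ) (W : Submodule ℚ (MQ n)), (∀ X ∈ W, IsNilpotent X) →
  (∀ X ∈ W, ∀ Y ∈ W, X * Y = Y * X) → 2 ≤ finrank ℚ W → ∀ I : Submodule ℚ (Fin n → ℚ), finrank ℚ I ≤ 2 →
  (∀ X ∈ W, ∀ v ∈ I, X *ᵥ v ∈ I) → ∃ X ∈ W, X ≠ 0 ∧ ∀ v ∈ I, X *ᵥ v = 0

/-- **CLN** (nilpotent action). Let `X_1, ..., X_r` be a basis of `W`. If `WI W I = I` then `I = ∑ X_i I`, so `I` is the sum of the `X_{i_1} ... X_{i_N} I` for every `N`; for `N > r n` some index occurs at least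
`n` times in each product, the factors commute and `X_i ^ n = 0`: `I = 0`. -/
def CLN_stmt : Prop := ∀ (n : ℕ) (W : Submodule ℚ (MQ n)), (∀ X ∈ W, IsNilpotent X) →
  (∀ X ∈ W, ∀ Y ∈ W, X * Y = Y * X) → ∀ I : Submodule ℚ (Fin n → ℚ), I ≠ ⊥ →
  (∀ X ∈ W, ∀ v ∈ I, X *ᵥ v ∈ I) → WI W I < I

/-- **CL3** (from CLA, CLB, CLN). `I = WI W ⊤`, `≠ ⊤` (CLN), so `dim I ≤ 2`, stable under `b` and `W`; CLB: some `X ≠ 0` kills `I`; CLA (2) with `K = 0`: all `X ∈ W` kill `I`. Take `0 ≠ X ∈ W`. `I ≠ 0`. If `dim I = 1`: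
`X V ⊆ I`, so the rank is one. If `dim I = 2`: `I ⊆ ker X`, so the rank is one. -/
def CL3_stmt : Prop := ∀ (H : Subgroup (SLZ 3)) (W : Submodule ℚ (MQ 3)) (b : SLZ 3), SI H W b → ∃ X ∈ W, X.rank = 1

/-- K-type: `W` is the set of all `S x R`, `x ∈ W₂`, `W₂` a space of `2 x 2` matrices whose nonzero elements are invertible,
`R S = 0`. -/
structure KT {n : ℕ} (W : Submodule ℚ (MQ n)) (R : Matrix (Fin 2) (Fin n) ℤ) (S : Matrix (Fin n) (Fin 2) ℤ) : Prop where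
  rs : R * S = 0
  ri : ∃ R' : Matrix (Fin n) (Fin 2) ℚ, cq R * R' = 1
  si : ∃ S' : Matrix (Fin 2) (Fin n) ℚ, S' * cq S = 1
  frm : ∀ X ∈ W, ∃ x : M2, X = cq S * x * cq R
  inv : ∀ x : M2, cq S * x * cq R ∈ W → x ≠ 0 → x.det ≠ 0

/-- D-type. `X ∈ W` maps `V` to `ker φ`, `ker φ` to `ℚ k`, `k` to `0`; modulo `k` the space `W` is the set of all `v ⊗ φ`, `v ∈ ker φ`;
`X * X ≠ 0` for `X ≠ 0`. -/
structure DT {n : ℕ} (W : Submodule ℚ (MQ n)) (k φ : Fin n → ℚ) : Prop where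
  k0 : k ≠ 0
  f0 : φ ≠ 0
  fk : φ ⬝ᵥ k = 0
  dim : finrank ℚ W = 2
  Xk : ∀ X ∈ W, X *ᵥ k = 0
  fX : ∀ X ∈ W, φ ᵥ* X = 0
  Xu : ∀ X ∈ W, ∀ v, φ ⬝ᵥ v = 0 → ∃ c : ℚ, X *ᵥ v = c • k
  sf : ∀ v, φ ⬝ᵥ v = 0 → ∀ w, φ ⬝ᵥ w = 1 → ∃ X ∈ W, ∃ c : ℚ, X *ᵥ w = v + c • k
  an : ∀ X ∈ W, X ≠ 0 → X * X ≠ 0

/-- **CLK** (from CLA, CLB). `E = WI W ⊤` is stable under `b` and `W`. CLB: some `X ≠ 0` kills `E`; CLA: all do. For `0 ≠ X ∈ W`: `X V ⊆ E ⊆ ker X`, `rank X ≤ 2`, not `1`, so `X V = E = ker X`. Columns of `S` = a basis of `E`, rows of `R` = a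
basis of the linear forms that vanish on `E` (both scaled to be integral). `X V ⊆ E`: `X = S Y`, `Y E = 0`: `Y = x R`; `x` is invertible if `X` has rank two. -/
def CLK_stmt : Prop := ∀ (H : Subgroup (SLZ 4)) (W : Submodule ℚ (MQ 4)) (b : SLZ 4), SI H W b →
  (∀ X ∈ W, X.rank ≠ 1) → finrank ℚ (WI W ⊤) = 2 →
  ∃ (R : Matrix (Fin 2) (Fin 4) ℤ) (S : Matrix (Fin 4) (Fin 2) ℤ), KT W R S

/-- **CLD** (from CLA, CLB, CLN; shape of the D-type). `U = WI W ⊤ = ker φ`, `φ X = 0`, `dim U = 3`. (1) For `0 ≠ X ∈ W`, `X U ≠ 0`: otherwise all `X ∈ W` kill `U` (CLA) and have rank `≤ 1`. (2) `U₁ = WI W U < U` (CLN), stable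
under `b` and `W`, not `0` by (1). (3) `dim U₁ = 2` is impossible: CLB and CLA: all `X ∈ W` kill `U₁`. Let `v ∉ U`, `u ∈ U`, `u ∉ U₁`. `X ↦ X u ∈ U₁` is injective on `W` by (1), `X v = x(X) u` modulo `U₁`, and
`X Y v = Y X v` gives `x(Y) X u = x(X) Y u`; for `X`, `Y` linearly independent `X u`, `Y u` are, so `x(X) = x(Y) = 0`; so `x = 0` (`dim W ≥ 2`), `W v ⊆ U₁`, `U = WI W ⊤ ⊆ U₁`, contradiction. (4) So `U₁ = ℚ k`;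
`X k = 0` (nilpotent on `ℚ k`). (5) `dim W ≤ 2`: `X ↦` (`U / ℚ k → ℚ k`) is injective by (1), so `dim W = 2`. (6) `X w ∉ ℚ k` for `X ≠ 0`, `φ w ≠ 0`: otherwise `X V ⊆ ℚ k`, rank `≤ 1`. So `X ↦ X w ∈ U / ℚ k` is injective, hence
surjective (`dim 2`). -/
def CLD_stmt : Prop := ∀ (H : Subgroup (SLZ 4)) (W : Submodule ℚ (MQ 4)) (b : SLZ 4), SI H W b →
  (∀ X ∈ W, X.rank ≠ 1) → finrank ℚ (WI W ⊤) = 3 →
  ∃ k φ : Fin 4 → ℚ, k ≠ 0 ∧ φ ≠ 0 ∧ φ ⬝ᵥ k = 0 ∧ finrank ℚ W = 2 ∧ (∀ X ∈ W, X *ᵥ k = 0) ∧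
    (∀ X ∈ W, φ ᵥ* X = 0) ∧ (∀ X ∈ W, ∀ v, φ ⬝ᵥ v = 0 → ∃ c : ℚ, X *ᵥ v = c • k) ∧
    (∀ v, φ ⬝ᵥ v = 0 → ∀ w, φ ⬝ᵥ w = 1 → ∃ X ∈ W, ∃ c : ℚ, X *ᵥ w = v + c • k) ∧
    ∀ X ∈ W, X ≠ 0 → ∃ v, φ ⬝ᵥ v = 0 ∧ X *ᵥ v ≠ 0

/-- **CLE** (anisotropy). `φ w = 1`. For `X, Y ∈ W` `X Y = B(X, Y) k ⊗ φ` where `X Y w = B(X, Y) k` (`X Y` kills `ker φ`), `B` is bilinear, symmetric, and nondegenerate on `W`: if `B(X, Y) = 0` for all `Y` then `X` kills all `Y w`, so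
(surjectivity) `ker φ`, so `X = 0` by the last hypothesis. Let `0 ≠ X₀ ∈ W`, `X₀ X₀ = 0`, `T = cj b`. `T X₀` squares to `0` too. `T X₀ ∉ ℚ X₀` (`irr`), so `X₀`, `X₁ = T X₀` is a basis of `W`, `B(X₀, X₁) ≠ 0`. `T X₁ = x X₀ + y X₁` squares to `0`: `x y = 0`;
`x ≠ 0` since otherwise `ℚ X₁` is stable under `T` (`irr`); so `y = 0`, `T ^ 2 X₀ = x X₀`, contradiction to `irr` for `j = 2`. -/
def CLE_stmt : Prop := ∀ (n : ℕ) (H : Subgroup (SLZ n)) (W : Submodule ℚ (MQ n)) (b : SLZ n), SI H W b →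
  ∀ k φ : Fin n → ℚ, k ≠ 0 → φ ≠ 0 → finrank ℚ W = 2 → (∀ X ∈ W, X *ᵥ k = 0) → (∀ X ∈ W, φ ᵥ* X = 0) →
    (∀ X ∈ W, ∀ v, φ ⬝ᵥ v = 0 → ∃ c : ℚ, X *ᵥ v = c • k) →
    (∀ v, φ ⬝ᵥ v = 0 → ∀ w, φ ⬝ᵥ w = 1 → ∃ X ∈ W, ∃ c : ℚ, X *ᵥ w = v + c • k) →
    (∀ X ∈ W, X ≠ 0 → ∃ v, φ ⬝ᵥ v = 0 ∧ X *ᵥ v ≠ 0) → ∀ X ∈ W, X ≠ 0 → X * X ≠ 0

/-! K-type -/

/-- the block `R g S` -/
def Cb {n : ℕ} (R : Matrix (Fin 2) (Fin n) ℤ) (S : Matrix (Fin n) (Fin 2) ℤ) (g : SLZ n) : M2 :=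
  cq R * stdM ℚ g * cq S

/-- **KGN** (a generic `g`). `C(g) = R g S`. Let `y ∈ W₂` be invertible, `z = adj y`. Some `a ∈ M₂(ℚ)` has `a z a ∉ W₂`: otherwise `(a + z⁻¹) z (a + z⁻¹) - a z a - z⁻¹ z z⁻¹ = 2 a ∈ W₂` for all `a`. Let `ψ` be a linear form that vanishes on
`W₂`, `ψ (a z a) ≠ 0`. Special elements: `S'₁ = S' - S' R' R` has `S'₁ S = 1`, `S'₁ R' = 0`; for `c ∈ M₂(ℚ)` and an integer `N ≠ 0` such that `N R' c S'₁` is integral `g₀ = 1 + N R' c S'₁` is in `SL(n, ℤ)` (`det = det (1 + N c S'₁ R') = 1`,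
`g₀⁻¹ = 1 - N R' c S'₁`) and `C(g₀) = N c`, `C(g₀⁻¹) = - N c`. So the polynomial functions (multiplied by an integer to be integral; the entries of `C(g)`, `C(g⁻¹)` are `IsPoly`: `IsPoly.entry`, `entry_inv`, `sum`, `mul`) `det C(g)`, `det C(g⁻¹)` (`c = 1`) and
`ψ (adj C(g) z adj C(g⁻¹))` (`c = adj a`, `adj` is linear on `2 x 2` matrices) are `NZ`; `NZ.mul`, `NZ.dense`. -/
def KGN_stmt : Prop := ∀ (n : ℕ) (H : Subgroup (SLZ n)), ZDense H → ∀ (R : Matrix (Fin 2) (Fin n) ℤ)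
  (S : Matrix (Fin n) (Fin 2) ℤ) (R' : Matrix (Fin n) (Fin 2) ℚ) (S' : Matrix (Fin 2) (Fin n) ℚ), R * S = 0 →
  cq R * R' = 1 → S' * cq S = 1 → ∀ W₂ : Submodule ℚ M2, W₂ ≠ ⊤ → (∃ y ∈ W₂, y.det ≠ 0) →
  ∃ g ∈ H, (Cb R S g).det ≠ 0 ∧ (Cb R S g⁻¹).det ≠ 0 ∧
    ∃ y ∈ W₂, adjugate (Cb R S g) * adjugate y * adjugate (Cb R S g⁻¹) ∉ W₂

/-- **KDT** (from CPN; the action of `b`). Let `0 ≠ X = S x R ∈ W`, `cj b X = S x' R`, so `b S x R b⁻¹ = S x' R`; `x`, `x'` are invertible. Multiply by `b R'`: `b S = S α`, `α = x' R b R' x⁻¹`; by `S'`: `α x R b⁻¹ = x' R`, and `α = S' b S` is invertible (also `b⁻¹ S = S α'`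
in the same way from `cj b⁻¹`, or: `b S` has rank two), so `R b⁻¹ = δ R`. So `cj b (S y R) = S (α y δ) R` for all `y`. Let `c = det α det δ`: `det (T₁ y) = c det y`, `T₁ y = α y δ`. `T₁ ^ i x = S' (b ^ i X b ^ (-i)) R'` (`i ∈ ℤ`) has bounded denominators, so has
`c ^ i det x`: `c = ± 1` (CPN). `T = T₁ ^ 2`. -/
def KDT_stmt : Prop := ∀ (n : ℕ) (H : Subgroup (SLZ n)) (W : Submodule ℚ (MQ n)) (b : SLZ n)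
  (R : Matrix (Fin 2) (Fin n) ℤ) (S : Matrix (Fin n) (Fin 2) ℤ), SI H W b → KT W R S →
  ∃ T : M2 →ₗ[ℚ] M2, ∀ x : M2, cj (b ^ 2) (cq S * x * cq R) = cq S * T x * cq R ∧ (T x).det = x.det

/-- **KCH** (choice of `x₁`, `x₂`, `x`). Let `w₁`, `w₂ ∈ Λ` be a basis of `W₂`, `e = (1, 0)`. `x ↦ x e` is injective on `W₂`, so bijective to `ℚ²`; for `i = 1, 2` let `Φ_i z` be the `x ∈ W₂` with `x e = C⁻¹ (adj z) C'⁻¹ e / det w_i`, linear in `z`. Choose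
`D > 0` with `D Φ_i λ ∈ Λ` for all generators `λ` of `Λ`, so for all `λ ∈ Λ`. Choose `j > 0` with `T ^ j w_i - w_i = D z_i`, `z_i ∈ Λ`, `i = 1, 2` (product of the two `j`). Put `x₁ = w_i`, `x₂ = - T ^ j w_i = - w_i - D z_i ∈ Λ`, `det x₂ = det x₁ ≠ 0`,
`x₁⁻¹ + x₂⁻¹ = (adj w_i - adj (T ^ j w_i)) / det w_i = - D adj z_i / det w_i` (`adj` is linear on `2 x 2` matrices, `x⁻¹ = adj x / det x`), `M = C⁻¹ (x₁⁻¹ + x₂⁻¹) C'⁻¹`, `x = D Φ_i z_i ∈ Λ`: `(x + M) e = 0`. If `M ∈ W₂` for `i = 1` and `i = 2` then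
`adj C adj (T ^ j w_i - w_i) adj C' ∈ W₂` for both, and the `T ^ j w_i - w_i` are a basis of `W₂` (`T ^ j - 1` is injective on `W₂`), a contradiction. So `M ∉ W₂` for one `i`, and `x + M ≠ 0`. -/
def KCH_stmt : Prop := ∀ W₂ : Submodule ℚ M2, finrank ℚ W₂ = 2 → (∀ x ∈ W₂, x ≠ 0 → x.det ≠ 0) →
  ∀ T : M2 →ₗ[ℚ] M2, (∀ x ∈ W₂, T x ∈ W₂) → (∀ x ∈ W₂, (T x).det = x.det) →
  (∀ j : ℕ, 0 < j → ∀ x ∈ W₂, (T ^ j) x = x → x = 0) →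
  ∀ Λ : AddSubgroup M2, Λ.FG → (∀ x ∈ Λ, x ∈ W₂) → (∀ x ∈ W₂, ∃ k : ℕ, 0 < k ∧ (k : ℚ) • x ∈ Λ) →
  (∀ x ∈ W₂, ∀ D : ℕ, 0 < D → ∃ j : ℕ, 0 < j ∧ ∀ i : ℕ, ∃ z ∈ Λ, (T ^ (j * i)) x - x = (D : ℚ) • z) →
  ∀ C C' : M2, C.det ≠ 0 → C'.det ≠ 0 → (∃ y ∈ W₂, adjugate C * adjugate y * adjugate C' ∉ W₂) →
  ∃ x₁ ∈ Λ, ∃ x₂ ∈ Λ, ∃ x ∈ Λ, x₁.det ≠ 0 ∧ x₂.det ≠ 0 ∧
    (x + C⁻¹ * (x₁⁻¹ + x₂⁻¹) * C'⁻¹).det = 0 ∧ x + C⁻¹ * (x₁⁻¹ + x₂⁻¹) * C'⁻¹ ≠ 0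

/-- **KMM** (the element `m`). `a_i`, `a ∈ H` with matrices `exp (S x_i R) = 1 + S x_i R`, `1 + S x R` (`(S x R) ^ 2 = 0`). `y_i = g⁻¹ a_i g`, `m = y₁ a y₂`. `C(g (1 + S x R) h) = C(g h) + C(g) x C(h)`. `C = C(g)`, `C' = C(g⁻¹)`,
`C(1) = 0`, `y₁ y₂ = g⁻¹ (1 + S (x₁ + x₂) R) g`, so `C(m) = C' (x₁ + x₂) C + C' x₁ C x C' x₂ C = C' x₁ C (x + M) C' x₂ C` with `M = C⁻¹ (x₁⁻¹ + x₂⁻¹) C'⁻¹`, and `C(m⁻¹) = - C' (x₁ + x₂) C - C' x₂ C x C' x₁ C =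
- C' x₂ C (x + M) C' x₁ C` (`y_i⁻¹ = g⁻¹ (1 - S x_i R) g`, `m⁻¹ = y₂⁻¹ a⁻¹ y₁⁻¹`). -/
def KMM_stmt : Prop := ∀ (n : ℕ) (H : Subgroup (SLZ n)) (R : Matrix (Fin 2) (Fin n) ℤ)
  (S : Matrix (Fin n) (Fin 2) ℤ), R * S = 0 → ∀ g ∈ H, (Cb R S g).det ≠ 0 → (Cb R S g⁻¹).det ≠ 0 →
  ∀ x₁ x₂ x : M2, EX H (cq S * x₁ * cq R) → EX H (cq S * x₂ * cq R) → EX H (cq S * x * cq R) →
  x₁.det ≠ 0 → x₂.det ≠ 0 → (x + (Cb R S g)⁻¹ * (x₁⁻¹ + x₂⁻¹) * (Cb R S g⁻¹)⁻¹).det = 0 →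
  x + (Cb R S g)⁻¹ * (x₁⁻¹ + x₂⁻¹) * (Cb R S g⁻¹)⁻¹ ≠ 0 →
  ∃ m ∈ H, Cb R S m ≠ 0 ∧ (Cb R S m).det = 0 ∧ Cb R S m⁻¹ ≠ 0 ∧ (Cb R S m⁻¹).det = 0

/-- **KND** (from F1; the end). `C(m) = u ⊗ v`, `C(m⁻¹) = u' ⊗ v'` (`2 x 2`, nonzero, determinant `0`), all four vectors `≠ 0`. `0 ≠ x₀ ∈ W₂` with `v' x₀ u = 0` (`dim 2`). Some `x' ∈ W₂` has `v x' u' ≠ 0` (`x ↦ x u'` is injective on `W₂`, so onto `ℚ²`). Scale both: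
`X₀ = S x₀ R`, `X' = S x' R`, `EX H` for both. `Y = m X' m⁻¹`. `X₀ X₀ = 0`, `Y Y = 0`, `Y X₀ Y = m S x' C(m⁻¹) x₀ C(m) x' R m⁻¹ = 0`, `Z = X₀ Y X₀ = S x₀ C(m) x' C(m⁻¹) x₀ R = S x₀ u (v x' u') v' x₀ R` has rank one. `a = 1 + X₀`, `y = 1 + Y` in `H`;
`t = (a y a⁻¹) (a⁻¹ y a) (y⁻¹) ^ 2` has the matrix `1 - 2 Z` (`a y a⁻¹ = 1 + Y + [X₀, Y] - Z`, `a⁻¹ y a = 1 + Y - [X₀, Y] - Z`, their product is `1 + 2 Y - 2 Z`). `t` commutes with `a` (`X₀ Z = 0 = Z X₀`), and `a ^ k ≠ t ^ m'` since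
`k X₀` has rank two (`X₀ = S x₀ R`, `x₀` invertible) and `- 2 m' Z` rank `≤ 1`. F1 with `u = a`. -/
def KND_stmt : Prop := ∀ (n : ℕ), 3 ≤ n → ∀ H : Subgroup (SLZ n), ZDense H → ∀ (R : Matrix (Fin 2) (Fin n) ℤ)
  (S : Matrix (Fin n) (Fin 2) ℤ) (R' : Matrix (Fin n) (Fin 2) ℚ) (S' : Matrix (Fin 2) (Fin n) ℚ), R * S = 0 →
  cq R * R' = 1 → S' * cq S = 1 → ∀ W₂ : Submodule ℚ M2, finrank ℚ W₂ = 2 → (∀ x ∈ W₂, x ≠ 0 → x.det ≠ 0) →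
  (∀ x ∈ W₂, ∃ k : ℕ, 0 < k ∧ EX H ((k : ℚ) • (cq S * x * cq R))) →
  (∃ m ∈ H, Cb R S m ≠ 0 ∧ (Cb R S m).det = 0 ∧ Cb R S m⁻¹ ≠ 0 ∧ (Cb R S m⁻¹).det = 0) → H.FiniteIndex

/-- **KTH** (from LTA, LTB, KGN, KDT, KCH, KMM, KND; assembly). `W₂ = {x : S x R ∈ W}`, isomorphic to `W`; `dim = 2` (`≤ 2`: `x ↦ x e` is injective). `D` from LTA. `Λ = {x ∈ W₂ : S x R = D • (integral)}`: finitely generated (isomorphic to a subgroup of the integer matrices;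
`x ↦ S x R` is injective, `x = S' (S x R) R'`). `T` from KDT: `S (T ^ j x) R = cj (b ^ (2 j)) (S x R)`; `T ^ j x = x`, `x ≠ 0` contradicts `irr` (the line is stable and `dim W ≥ 2`). LTB for `b ^ 2`, `S x R` and `D D'` gives the last condition on `Λ`. KGN (`W₂ ≠ ⊤` as `dim = 2`), KCH, KMM, KND. -/
def KTH_stmt : Prop := ∀ (n : ℕ), 3 ≤ n → ∀ H : Subgroup (SLZ n), ZDense H → ∀ (W : Submodule ℚ (MQ n)) (b : SLZ n)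
  (R : Matrix (Fin 2) (Fin n) ℤ) (S : Matrix (Fin n) (Fin 2) ℤ), SI H W b → KT W R S → H.FiniteIndex

/-! D-type -/

/-- **DFM** (the quadratic form). `φ w = 1`, `κ k = 1`: `B X Y = κ (X Y w)`; for `X, Y ∈ W`: `X Y` kills `ker φ` and `X Y w ∈ ℚ k`. `B(X, X) = 0` gives `X X = 0`, so `X = 0`; so `B` is nondegenerate on `W` and every linear form on `W` is `B(·, X₀)`. -/
def DFM_stmt : Prop := ∀ (n : ℕ) (W : Submodule ℚ (MQ n)) (k φ : Fin n → ℚ), (∀ X ∈ W, ∀ Y ∈ W, X * Y = Y * X) →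
  DT W k φ → ∃ B : MQ n →ₗ[ℚ] MQ n →ₗ[ℚ] ℚ,
    (∀ X ∈ W, ∀ Y ∈ W, X * Y = B X Y • vecMulVec k φ ∧ B X Y = B Y X) ∧ (∀ X ∈ W, B X X = 0 → X = 0) ∧
    ∀ l : MQ n →ₗ[ℚ] ℚ, ∃ X₀ ∈ W, ∀ X ∈ W, B X X₀ = l X

/-- **DIS** (from EIG, DFM; `cj (b ^ 2)` preserves the form). Take `0 ≠ X ∈ W`: `X X = β • k ⊗ φ`, `β ≠ 0`, `cj b (X X) = (cj b X) (cj b X) = β' • k ⊗ φ`, so `cj b (k ⊗ φ) = c • k ⊗ φ`, `c = ± 1` by EIG (3). So `cj (b ^ 2)` fixes `k ⊗ φ`, hence all `X X`. -/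
def DIS_stmt : Prop := ∀ (n : ℕ) (H : Subgroup (SLZ n)) (W : Submodule ℚ (MQ n)) (b : SLZ n) (k φ : Fin n → ℚ),
  SI H W b → DT W k φ → ∀ X ∈ W, cj (b ^ 2) X * cj (b ^ 2) X = X * X

/-- **DGN** (a generic `g`). Take `0 ≠ X ∈ W`, `a` with `φ a = 1`: `X a ∉ ℚ k` (otherwise `X X = 0`), and `a ∉ ker φ ∋ k, X a`; so there is `α` with `α a = 0`, `α k ≠ 0`, `α (X a) ≠ 0`. Scale `k`, `φ`, `X`, `a`, `α` to be integral. `g₀ = 1 + a ⊗ α ∈ SL(n, ℤ)`,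
`g₀⁻¹ = 1 - a ⊗ α`, `φ (g₀ X g₀⁻¹ k) = - (α k) (α (X a)) (φ a) ≠ 0` (`X k = 0`, `φ X = 0`). So `g ↦ φ (g X g⁻¹ k)` is `NZ` (`IsPoly` by `entry`, `entry_inv`, `sum`, `mul`), and `NZ.dot`, `NZ.dot_inv`; `NZ.mul`, `NZ.dense`. -/
def DGN_stmt : Prop := ∀ (n : ℕ) (H : Subgroup (SLZ n)), ZDense H → ∀ (W : Submodule ℚ (MQ n)) (k φ : Fin n → ℚ),
  DT W k φ → ∃ g ∈ H, φ ⬝ᵥ (stdM ℚ g *ᵥ k) ≠ 0 ∧ φ ⬝ᵥ (stdM ℚ g⁻¹ *ᵥ k) ≠ 0 ∧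
    ∃ X ∈ W, φ ⬝ᵥ ((stdM ℚ g * X * stdM ℚ g⁻¹) *ᵥ k) ≠ 0

/-- **DRT** (from DFM, DIS, LTA, LTB; the element `m`). `β X = B X X`. For `X ∈ W`, `exp X = 1 + X + (1/2) X X`, `f(X) = φ (g (exp X) g⁻¹ k) = ℓ X + a β X` with `ℓ X = φ (g X g⁻¹ k)`, `a = (1/2) φ(g k) φ(g⁻¹ k) ≠ 0` (`φ k = 0`). DFM: `ℓ = 2 a B(·, X₀)` on `W`, `X₀ ≠ 0`;
`f(X) = a (β (X + X₀) - β X₀)`. `X = cj (b ^ (2 i)) X₀ - X₀` is a zero of `f` (DIS for powers), not `0` for `i > 0` (`irr`: the line `ℚ X₀` would be stable, `dim W ≥ 2`), and by LTB, LTA `EX H X` for suitable `i`. `m = g (exp X) g⁻¹`: `φ(m k) = 0`,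
`φ(m⁻¹ k) = f(- X) = 2 a β X ≠ 0`. -/
def DRT_stmt : Prop := ∀ (n : ℕ) (H : Subgroup (SLZ n)) (W : Submodule ℚ (MQ n)) (b : SLZ n) (k φ : Fin n → ℚ),
  SI H W b → DT W k φ →
  (∃ g ∈ H, φ ⬝ᵥ (stdM ℚ g *ᵥ k) ≠ 0 ∧ φ ⬝ᵥ (stdM ℚ g⁻¹ *ᵥ k) ≠ 0 ∧
    ∃ X ∈ W, φ ⬝ᵥ ((stdM ℚ g * X * stdM ℚ g⁻¹) *ᵥ k) ≠ 0) →
  ∃ m ∈ H, φ ⬝ᵥ (stdM ℚ m *ᵥ k) = 0 ∧ φ ⬝ᵥ (stdM ℚ m⁻¹ *ᵥ k) ≠ 0

/-- **DSS** (the element `s`). `X (m k) = α(X) k` is a linear form on `W` (`φ (m k) = 0`, `Xu`), so there is `0 ≠ X₁ ∈ W` with `X₁ (m k) = 0`, `EX H X₁` after scaling. `s = m⁻¹ (exp X₁) m`, `exp X₁ = 1 + X₁ + (1/2) X₁ X₁`: `s k = k`. Suppose `φ s = c φ`: apply `m⁻¹` on the right, `ρ = φ m⁻¹`,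
`ρ k ≠ 0`: `ρ (exp X₁) = c ρ`. Evaluate at `k`: `c = 1`, so `ρ X₁ + (1/2) ρ X₁ X₁ = 0`. Evaluate at `u` with `φ u = 0`, `X₁ u = c' k ≠ 0` (exists: `u = X₁ w`, `φ w = 1`, as `X₁ X₁ ≠ 0`): `X₁ X₁ u = 0`, `ρ (X₁ u) = c' ρ k ≠ 0`, contradiction. -/
def DSS_stmt : Prop := ∀ (n : ℕ) (H : Subgroup (SLZ n)) (W : Submodule ℚ (MQ n)) (k φ : Fin n → ℚ),
  (∀ X ∈ W, ∀ Y ∈ W, X * Y = Y * X) → (∀ X ∈ W, ∃ j : ℕ, 0 < j ∧ EX H ((j : ℚ) • X)) → DT W k φ →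
  (∃ m ∈ H, φ ⬝ᵥ (stdM ℚ m *ᵥ k) = 0 ∧ φ ⬝ᵥ (stdM ℚ m⁻¹ *ᵥ k) ≠ 0) →
  ∃ s ∈ H, stdM ℚ s *ᵥ k = k ∧ ∀ c : ℚ, φ ᵥ* stdM ℚ s ≠ c • φ

/-- **DPR** (two spaces with the same `k`). `φ'` is not a multiple of `φ` and `φ'≠ 0`, so `φ` is not a multiple of `φ'`. `v ∉ ℚ k` with `φ v = φ' v = 0` (`n - 2 ≥ 2`); `v'` with `φ' v' = 0`, `φ v' ≠ 0`. By `sf`, `Xu` there are `X ∈ W` with `X ≡ v ⊗ φ` modulo `k` (`X u - (φ u) v ∈ ℚ k` for all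
`u`), `Y ∈ W'` with `Y ≡ v' ⊗ φ'`, `Z ∈ W'` with `Z ≡ (φ v') v ⊗ φ'`. Then `X Y ≡ Z` (`X (Y u) ≡ φ(Y u) v`, `φ (Y u) = (φ' u) (φ v')` as `φ k = 0`), `Y X ≡ 0`, `X Z ≡ 0`, `Z X ≡ 0` modulo `k`. Scale: `X` by `i₁`, `Y` by `i₂`, `Z` by `i₁ i₂`; replace `X` by a multiple such that also `EX H Z` (`EX H X` implies
`EX H (i X)` for `i > 0`, `X` nilpotent). `X ≠ 0`, `Z ≠ 0` as `v ∉ ℚ k`. -/
def DPR_stmt : Prop := ∀ (n : ℕ), 4 ≤ n → ∀ (H : Subgroup (SLZ n)) (W W' : Submodule ℚ (MQ n)) (k φ φ' : Fin n → ℚ),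
  DT W k φ → DT W' k φ' → (∀ X ∈ W, IsNilpotent X) → (∀ X ∈ W', IsNilpotent X) →
  (∀ X ∈ W, ∃ j : ℕ, 0 < j ∧ EX H ((j : ℚ) • X)) → (∀ X ∈ W', ∃ j : ℕ, 0 < j ∧ EX H ((j : ℚ) • X)) →
  (∀ c : ℚ, φ' ≠ c • φ) →
  ∃ X ∈ W, ∃ Y ∈ W', ∃ Z ∈ W', X ≠ 0 ∧ Z ≠ 0 ∧ EX H X ∧ EX H Y ∧ EX H Z ∧
    (∀ u, ∃ c : ℚ, (X * Y - Z) *ᵥ u = c • k) ∧ (∀ u, ∃ c : ℚ, (Y * X) *ᵥ u = c • k) ∧
    (∀ u, ∃ c : ℚ, (X * Z) *ᵥ u = c • k) ∧ ∀ u, ∃ c : ℚ, (Z * X) *ᵥ u = c • k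

/-- **DNR** (from F1; an element `r` which acts trivially on `k` and modulo `k`). `r = 1 + k ⊗ ψ`, `ψ ≠ 0`, `ψ k = 0`: rank one. `a` = the element `exp X`, `a k = k`. If `a r = r a`: `u = a`; `a ^ i ≠ r ^ m` for `i > 0`: with `φ w = 1`, `(a ^ i - 1) w = i X w + (multiple of k) ∉ ℚ k` (`X w ∉ ℚ k` as `X X ≠ 0`),
`(r ^ m - 1) w ∈ ℚ k`. If `a r ≠ r a`: `u = a r a⁻¹ = 1 + k ⊗ (ψ a⁻¹)` commutes with `r` (`ψ k = 0`, `ψ (a⁻¹ k) = 0`); `u ^ i = r ^ m`, `i > 0`, gives `i ψ a⁻¹ = m ψ`, and `a⁻¹` is unipotent, so `m = i`, `ψ a⁻¹ = ψ`, `u = r`, contradiction. F1 with `t = r`. -/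
def DNR_stmt : Prop := ∀ (n : ℕ), 3 ≤ n → ∀ H : Subgroup (SLZ n), ZDense H → ∀ (W : Submodule ℚ (MQ n))
  (k φ : Fin n → ℚ), DT W k φ → ∀ X ∈ W, X ≠ 0 → EX H X → ∀ r ∈ H, r ≠ 1 → stdM ℚ r *ᵥ k = k →
  (∀ u, ∃ c : ℚ, (stdM ℚ r - 1) *ᵥ u = c • k) → H.FiniteIndex

/-- **DND** (from F2, DNR). `a`, `y`, `z` ∈ `H` with the matrices `exp X`, `exp Y`, `exp Z`; `exp X = 1 + X + (1/2) X X ≡ 1 + X` modulo `k` (`X X u ∈ ℚ k`), etc.; all fix `k`. `r = a y a⁻¹ y⁻¹ z⁻¹`: modulo `k`, `(1 + X) (1 + Y) (1 - X) (1 - Y) ≡ 1 + X Y` (`Y X ≡ 0`, `X X ≡ Y Y ≡ 0`), and `z⁻¹ ≡ 1 - Z ≡ 1 - X Y`,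
`Z Z ≡ 0`, so `r ≡ 1`. If `r ≠ 1`: DNR. If `r = 1`: `r' = a z a⁻¹ z⁻¹ ≡ 1` modulo `k` (`X Z ≡ Z X ≡ 0`); if `r' ≠ 1`: DNR. If `r' = 1`: `a`, `y`, `z` are a Heisenberg group (`y z = z y` as `Y`, `Z` commute; `z ^ i = exp (i Z) ≠ 1`): F2. -/
def DND_stmt : Prop := ∀ (n : ℕ), 3 ≤ n → n ≤ 4 → ∀ H : Subgroup (SLZ n), ZDense H → ∀ (W W' : Submodule ℚ (MQ n))
  (k φ φ' : Fin n → ℚ), DT W k φ → DT W' k φ' → (∀ X ∈ W', ∀ Y ∈ W', X * Y = Y * X) →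
  (∃ X ∈ W, ∃ Y ∈ W', ∃ Z ∈ W', X ≠ 0 ∧ Z ≠ 0 ∧ EX H X ∧ EX H Y ∧ EX H Z ∧
    (∀ u, ∃ c : ℚ, (X * Y - Z) *ᵥ u = c • k) ∧ (∀ u, ∃ c : ℚ, (Y * X) *ᵥ u = c • k) ∧
    (∀ u, ∃ c : ℚ, (X * Z) *ᵥ u = c • k) ∧ ∀ u, ∃ c : ℚ, (Z * X) *ᵥ u = c • k) → H.FiniteIndex

/-- **DTH** (from DGN, DRT, DSS, DPR, DND; assembly). `g`, `m`, `s`. `W' = cj s W` (`Submodule.map`), `φ' = φ s⁻¹`: `DT W' k φ'` (`s k = k`, `cj s` is an algebra automorphism), nilpotent, commuting, `EX H` (`exp (cj s X) = s (exp X) s⁻¹`). `φ' = c φ` would give `φ = c φ s`, `c ≠ 0`, contradiction to DSS. -/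
def DTH_stmt : Prop := ∀ H : Subgroup (SLZ 4), ZDense H → ∀ (W : Submodule ℚ (MQ 4)) (b : SLZ 4) (k φ : Fin 4 → ℚ),
  SI H W b → DT W k φ → H.FiniteIndex

/-- **VTH** (assembly, from SOL, SIE, F2, F3, CLN, CL3, CLK, CLD, CLE, KTH, DTH). `n = 4` without elements of rank one: `WI W ⊤ ≠ ⊤` (CLN), of dimension `≥ 2` (otherwise all `X ∈ W` have rank `≤ 1`), so `2` or `3`. -/
def VTH_stmt : Prop := ∀ (n : ℕ), 3 ≤ n → n ≤ 4 → ∀ H P : Subgroup (SLZ n), ZDense H → P ≤ H →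
  Group.IsSolvable P → NVA P → H.FiniteIndex

end Pool.Agent.VA
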