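import Pool.Agent.helper38.VA.Spec
import Pool.Agent.helper48.PR.SpecT
import Pool.Agent.helper48.SLn.Abel

/-!
va:TH3 the centralisers of free abelian subgroups of rank two of thin subgroups of `SL(3, ℤ)` (from the module TH of helper50).
-/

set_option autoImplicit false

namespace Pool.Agent.VA

open Matrix Polynomial Pool.Agent.PR Pool.Agent.H48SL

/-- **TH3** (compare `TH_stmt`) for a group embedded as a Zariski dense subgroup of infinite index. -/
def TH3_stmt : Prop :=
  ∀ (Λ : Type) [Group Λ] (R : Λ →* SLZ 3), Function.Injective R → ZDense R.range → ¬ R.range.FiniteIndex →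
    ∀ a b : Λ, a * b = b * a →
    (∀ i j : ℤ, a ^ i * b ^ j = 1 → i = 0 ∧ j = 0) → ∀ C : Subgroup Λ, C = Subgroup.centralizer {a, b} →
    Nonempty (C ≃* Multiplicative (Fin 2 → ℤ)) ∧
    (∀ c ∈ C, c ≠ 1 → Subgroup.centralizer {c} = C) ∧
    (∀ x : Λ, (∃ c ∈ C, c ≠ 1 ∧ x * c * x⁻¹ ∈ C) → x ∈ Subgroup.normalizer (C : Set Λ)) ∧
    ((C.subgroupOf (Subgroup.normalizer (C : Set Λ))).index = 1 ∨ (C.subgroupOf (Subgroup.normalizer (C : Set Λ))).index = 3)

/-- the rational representation -/
noncomputable def TH3_rho {n : ℕ} {Λ : Type} [Group Λ] (R : Λ →* SLZ n) : Λ →* Matrix (Fin n) (Fin n) ℚ :=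
  (stdHom n ℚ).comp R

theorem TH3_inj {n : ℕ} {Λ : Type} [Group Λ] (R : Λ →* SLZ n) (hR : Function.Injective R) :
    Function.Injective (TH3_rho R) := by
  intro a b h
  apply hR
  apply SL_ext
  ext i j
  have h1 := congrFun (congrFun h i) j
  simpa [TH3_rho, stdM] using h1

theorem TH3_tr {n : ℕ} {Λ : Type} [Group Λ] (R : Λ →* SLZ n) (l : Λ) :
    ∃ t : ℤ, (TH3_rho R l).trace = (t : ℚ) := by
  refine ⟨(R l : Matrix (Fin n) (Fin n) ℤ).trace, ?_⟩
  simp [TH3_rho, stdM, Matrix.trace]

theorem TH3 (hTF : TF_stmt) (hTG : TG_stmt) (hTV : TV_stmt) : TH3_stmt := by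
  intro Λ _ R hR hD hfi a b hab hind C hC
  have ha : ∀ k : ℕ, 0 < k → a ^ k ≠ 1 := by
    intro k hk h
    have := (hind k 0 (by rw [zpow_natCast, h, zpow_zero, mul_one])).1
    omega
  have hb : ∀ k : ℕ, 0 < k → ∀ m : ℤ, b ^ k ≠ a ^ m := by
    intro k hk m h
    have := (hind (-m) k (by rw [zpow_natCast, h, ← _root_.zpow_add, neg_add_cancel, zpow_zero])).2
    omega
  have hb1 : b ≠ 1 := by
    intro h
    have := (hind 0 1 (by rw [h]; simp)).2
    omega
  have hirrZ : Irreducible (R a : Matrix (Fin 3) (Fin 3) ℤ).charpoly := by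
    by_contra hred
    exact hfi (abel_three (H := R.range) hD (w := R a) (u := R b) ⟨a, rfl⟩ ⟨b, rfl⟩
      (fun k hk h => ha k (by omega) (hR (by rw [map_pow, map_one]; exact h))) hred
      (by rw [← map_mul, ← map_mul, hab])
      (fun k hk m h => hb k (by omega) m (hR (by rw [map_pow, map_zpow]; exact h))))
  have hirr : Irreducible ((R a : Matrix (Fin 3) (Fin 3) ℤ).charpoly.map (Int.castRingHom ℚ)) :=
    (Polynomial.Monic.irreducible_iff_irreducible_map_fraction_map (K := ℚ)
      (Matrix.charpoly_monic _)).1 hirrZ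
  have hchar' : (TH3_rho R a).charpoly =
      ((R a : Matrix (Fin 3) (Fin 3) ℤ).charpoly.map (Int.castRingHom ℚ)).map (algebraMap ℚ ℚ) := by
    rw [Algebra.algebraMap_self, Polynomial.map_id]
    change (stdM ℚ (R a)).charpoly = _
    unfold stdM
    rw [Matrix.charpoly_map]
  have i1 := TH3_inj R hR
  have i2 : ∀ l, (TH3_rho R l).det = 1 := fun l => det_stdM ℚ (R l)
  have i3 : ∀ l, ∃ t : ℤ, (TH3_rho R l).trace = (t : ℚ) := TH3_tr R
  have hF := hTF ℚ Λ (TH3_rho R) i1 i2 i3 a _ hirr hchar'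
  have hG := hTG ℚ Λ (TH3_rho R) i1 i2 i3 a _ hirr hchar'
  have hV := hTV ℚ Λ (TH3_rho R) i1 i2 i3 a _ hirr hchar' b hab hind
  have hCa : C = Subgroup.centralizer {a} := by
    rw [hC]
    apply le_antisymm
    · apply Subgroup.centralizer_le
      intro x hx
      rw [Set.mem_singleton_iff] at hx
      rw [hx]
      exact Set.mem_insert _ _
    · intro x hx
      have hbC : b ∈ Subgroup.centralizer {a} := by
        rw [Subgroup.mem_centralizer_singleton_iff]
        exact hab.symm
      have hx' := hx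
      rw [← hF b hbC hb1] at hx'
      rw [Subgroup.mem_centralizer_iff]
      intro y hy
      rcases hy with hy | hy
      · rw [hy]
        exact (Subgroup.mem_centralizer_iff.1 hx) a rfl
      · rw [Set.mem_singleton_iff] at hy
        rw [hy]
        exact (Subgroup.mem_centralizer_iff.1 hx') b rfl
  rw [hCa]
  refine ⟨hV, hF, ?_, hG⟩
  rintro x ⟨c, hc, hc1, hxc⟩
  have hc2 : x * c * x⁻¹ ≠ 1 := by
    intro h
    apply hc1
    have : c = x⁻¹ * (x * c * x⁻¹) * x := by group
    rw [this, h]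
    group
  have e1 := hF c hc hc1
  have e2 := hF _ hxc hc2
  rw [Subgroup.mem_normalizer_iff]
  intro d
  have key : (d * c = c * d) ↔ (x * d * x⁻¹ * (x * c * x⁻¹) = x * c * x⁻¹ * (x * d * x⁻¹)) := by
    constructor
    · intro h
      have h1 : x * d * x⁻¹ * (x * c * x⁻¹) = x * (d * c) * x⁻¹ := by group
      rw [h1, h]
      group
    · intro h
      have h1 : d * c = x⁻¹ * (x * d * x⁻¹ * (x * c * x⁻¹)) * x := by group
      rw [h1, h]
      group
  constructor
  · intro hd
    rw [← e2, Subgroup.mem_centralizer_singleton_iff]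
    rw [← e1, Subgroup.mem_centralizer_singleton_iff] at hd
    exact key.1 hd
  · intro hd
    rw [← e1, Subgroup.mem_centralizer_singleton_iff]
    rw [← e2, Subgroup.mem_centralizer_singleton_iff] at hd
    exact key.2 hd

end Pool.Agent.VA
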