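import Pool.Agent.helper38.VA.Asm
import Pool.Agent.helper38.VA.TH3
import Pool.Agent.helper48.PR.AsmT
import Pool.Agent.helper73.BRZ.Asm

/-!
Project va: final theorems for groups which embed as Zariski dense subgroups of infinite index, and for groups with the finite
quotients of `SL(n, ℤ)`.
-/

set_option autoImplicit false

namespace Pool.Agent.VA

open Pool.Agent.PR Pool.Agent.H48SL

theorem tTH3 : TH3_stmt := TH3 (TF TD TE) (TG TD) (TV TA TD TU)

/-- `Γ` embeds as a Zariski dense subgroup of infinite index -/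
def Thn (n : ℕ) (Γ : Type) [Group Γ] : Prop :=
  ∃ R : Γ →* SLZ n, Function.Injective R ∧ ZDense R.range ∧ ¬ R.range.FiniteIndex

theorem Fin_NVA {G G' : Type} [Group G] [Group G'] (R : G →* G') (hR : Function.Injective R) (P : Subgroup G)
    (hP : NVA P) : NVA (P.map R) := by
  intro B hB hc
  have h1 : B.comap R ≤ P := by
    intro x hx
    obtain ⟨y, hy, hxy⟩ := hB hx
    rwa [← hR hxy]
  have h2 := hP (B.comap R) h1 (fun x hx y hy => hR (by rw [map_mul, map_mul]; exact hc _ hx _ hy))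
  have h3 : (B.comap R).map R = B := by
    rw [Subgroup.map_comap_eq]
    apply inf_eq_right.mpr
    intro x hx
    obtain ⟨y, hy, hxy⟩ := hB hx
    exact ⟨y, hxy⟩
  rw [← h3, Subgroup.relIndex_map_map_of_injective _ _ hR]
  exact h2

theorem Fin_solv {n : ℕ} (hn3 : 3 ≤ n) (hn4 : n ≤ 4) {Γ : Type} [Group Γ] (h : Thn n Γ) (P : Subgroup Γ)
    (hP : Group.IsSolvable P) :
    ∃ B : Subgroup Γ, B ≤ P ∧ (∀ x ∈ B, ∀ y ∈ B, x * y = y * x) ∧ B.relIndex P ≠ 0 := by
  obtain ⟨R, hR, hD, hfi⟩ := h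
  by_contra hcon
  apply hfi
  have hN : NVA P := by
    intro B hB hc
    by_contra h0
    exact hcon ⟨B, hB, hc, h0⟩
  have hsol : Group.IsSolvable (P.map R) := by
    have := hP
    exact Group.isSolvable_of_surjective (f := R.subgroupMap P) (R.subgroupMap_surjective P)
  exact tVTH n hn3 hn4 R.range (P.map R) hD (by
    rintro _ ⟨x, _, rfl⟩
    exact ⟨x, rfl⟩) hsol (Fin_NVA R hR P hN)

theorem Fin_three {Γ : Type} [Group Γ] (h : Thn 3 Γ) (P : Subgroup Γ) (hP : Group.IsSolvable P)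
    {a b : Γ} (ha : a ∈ P) (hab : a * b = b * a) (hind : ∀ i j : ℤ, a ^ i * b ^ j = 1 → i = 0 ∧ j = 0)
    (C : Subgroup Γ) (hC : C = Subgroup.centralizer {a, b}) :
    Nonempty (C ≃* Multiplicative (Fin 2 → ℤ)) ∧ (∀ c ∈ C, c ≠ 1 → Subgroup.centralizer {c} = C) ∧
    (∀ x : Γ, (∃ c ∈ C, c ≠ 1 ∧ x * c * x⁻¹ ∈ C) → x ∈ Subgroup.normalizer (C : Set Γ)) ∧
    P ≤ Subgroup.normalizer (C : Set Γ) ∧
    ((C.subgroupOf (Subgroup.normalizer (C : Set Γ))).index = 1 ∨
      (C.subgroupOf (Subgroup.normalizer (C : Set Γ))).index = 3) := by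
  obtain ⟨B, hBP, hBc, hBi⟩ := Fin_solv le_rfl (by norm_num) h P hP
  obtain ⟨R, hR, hD, hfi⟩ := h
  obtain ⟨h1, h2, h3, h4⟩ := tTH3 Γ R hR hD hfi a b hab hind C hC
  refine ⟨h1, h2, h3, ?_, h4⟩
  intro x hx
  apply h3
  -- a normal abelian subgroup of finite index of `P`
  set B' : Subgroup P := (B.subgroupOf P).normalCore with hB'
  have hfin : (B.subgroupOf P).FiniteIndex := ⟨hBi⟩
  have hfin' : B'.FiniteIndex := by rw [hB']; infer_instance
  obtain ⟨k, hk, hak⟩ : ∃ k : ℕ, 0 < k ∧ (⟨a, ha⟩ : P) ^ k ∈ B' :=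
    ⟨B'.index, Nat.pos_of_ne_zero hfin'.index_ne_zero, Subgroup.pow_index_mem B' _⟩
  have hcomm : ∀ y ∈ B', ∀ z ∈ B', y * z = z * y := by
    intro y hy z hz
    have hy' : (y : Γ) ∈ B := (Subgroup.normalCore_le _ hy : y ∈ B.subgroupOf P)
    have hz' : (z : Γ) ∈ B := (Subgroup.normalCore_le _ hz : z ∈ B.subgroupOf P)
    exact Subtype.ext (hBc _ hy' _ hz')
  have hak1 : a ^ k ≠ 1 := by
    intro h0
    have := (hind k 0 (by rw [zpow_natCast, h0, zpow_zero, mul_one])).1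
    omega
  have hakC : a ^ k ∈ C := by
    rw [hC, Subgroup.mem_centralizer_iff]
    intro y hy
    rcases hy with hy | hy
    · rw [hy]; exact ((Commute.refl a).pow_right k).eq
    · rw [Set.mem_singleton_iff] at hy
      rw [hy]
      exact ((show Commute b a from hab.symm).pow_right k).eq
  refine ⟨a ^ k, hakC, hak1, ?_⟩
  rw [← h2 _ hakC hak1, Subgroup.mem_centralizer_singleton_iff]
  have hconj : (⟨x, hx⟩ : P) * (⟨a, ha⟩ : P) ^ k * (⟨x, hx⟩ : P)⁻¹ ∈ B' := by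
    have hnorm : B'.Normal := by rw [hB']; infer_instance
    exact hnorm.conj_mem _ hak _
  have h5 := hcomm _ hconj _ hak
  have h6 := congrArg Subtype.val h5
  simpa using h6

/-- a group with the finite quotients of `SL(n, ℤ)` which is not `SL(n, ℤ)` -/
theorem Fin_genus {n : ℕ} (hn : 3 ≤ n) {Γ : Type} [Group Γ] (hfg : Group.FG Γ) (hrf : RF Γ) (h1 : QuotLe Γ (SLZ n))
    (h2 : QuotLe (SLZ n) Γ) (hne : IsEmpty (Γ ≃* SLZ n)) : Thn n Γ := by
  obtain ⟨R, hR, hd⟩ := Pool.Agent.BRZ.tEMB n hn Γ hfg h1 h2 hrf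
  have hprof : ProfDense R.range := by
    apply tLPD n hn
    intro m hm γ
    obtain ⟨l, hl⟩ := hd m hm γ
    exact ⟨R l, ⟨l, rfl⟩, hl⟩
  refine ⟨R, hR, hprof.zdense, fun hfi => ?_⟩
  have htop := hprof.eq_top hfi
  exact hne.elim (MulEquiv.ofBijective R ⟨hR, MonoidHom.range_eq_top.mp htop⟩)

end Pool.Agent.VA
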