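import Pool.Agent.helper38.VA.Spec

/-!
va:CLB
-/

set_option autoImplicit false

namespace Pool.Agent.VA

open Matrix Module Pool.Agent.PR Pool.Agent.H48SL

theorem CLB_nilp {n : ℕ} {X : MQ n} (hX : IsNilpotent X) {v : Fin n → ℚ} {c : ℚ} (h : X *ᵥ v = c • v) (hv : v ≠ 0) :
    c = 0 := by
  obtain ⟨k, hk⟩ := hX
  have h1 : ∀ j : ℕ, (X ^ j) *ᵥ v = c ^ j • v := by
    intro j
    induction j with
    | zero => simp
    | succ j ih =>
      rw [pow_succ, ← Matrix.mulVec_mulVec, h, Matrix.mulVec_smul, ih, smul_smul, pow_succ']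
  have h2 := h1 k
  rw [hk, Matrix.zero_mulVec] at h2
  have h3 := (smul_eq_zero.mp h2.symm).resolve_right hv
  by_contra hc
  exact pow_ne_zero k hc h3

theorem CLB : CLB_stmt := by
  intro n W hnil hcom hW I hI hst
  -- there is a nonzero element
  obtain ⟨A, hA, hA0⟩ : ∃ A ∈ W, A ≠ 0 := by
    by_contra hcon
    push Not at hcon
    have hW0 : W = ⊥ := by
      rw [eq_bot_iff]
      intro X hX
      exact hcon X hX
    rw [hW0, finrank_bot] at hW
    omega
  by_cases hk : ∀ v ∈ I, A *ᵥ v = 0
  · exact ⟨A, hA, hA0, hk⟩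
  push Not at hk
  obtain ⟨f, hf, hf0⟩ := hk
  set e : Fin n → ℚ := A *ᵥ f with he
  have heI : e ∈ I := hst A hA f hf
  -- `e`, `f` independent
  have hli : LinearIndependent ℚ ![f, e] := by
    rw [LinearIndependent.pair_iff]
    intro s t hst'
    by_cases ht : t = 0
    · subst ht
      rw [zero_smul, add_zero] at hst'
      refine ⟨?_, rfl⟩
      rcases smul_eq_zero.mp hst' with h | h
      · exact h
      · exfalso; apply hf0; rw [he, h, Matrix.mulVec_zero]
    · exfalso
      have h1 : A *ᵥ f = (-s / t) • f := by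
        rw [← he]
        have : t • e = (-s) • f := by
          rw [neg_smul, eq_neg_iff_add_eq_zero, add_comm]; exact hst'
        rw [div_eq_inv_mul, mul_smul, ← this, smul_smul, inv_mul_cancel₀ ht, one_smul]
      have hfne : f ≠ 0 := by
        intro h; apply hf0; rw [he, h, Matrix.mulVec_zero]
      have h2 := CLB_nilp (hnil A hA) h1 hfne
      rw [h2, zero_smul] at h1
      exact hf0 h1
  have hspan : Submodule.span ℚ (Set.range ![f, e]) = I := by
    apply Submodule.eq_of_le_of_finrank_le
    · rw [Submodule.span_le]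
      rintro _ ⟨i, rfl⟩
      fin_cases i
      · exact hf
      · exact heI
    · rw [finrank_span_eq_card hli]
      simpa using hI
  have hdec : ∀ v ∈ I, ∃ s t : ℚ, v = s • f + t • e := by
    intro v hv
    rw [← hspan, Matrix.range_cons, Matrix.range_cons, Matrix.range_empty, Set.union_empty,
      Set.singleton_union, Submodule.mem_span_pair] at hv
    obtain ⟨s, t, h⟩ := hv
    exact ⟨s, t, h.symm⟩
  -- every `Y ∈ W` kills `e` and maps `f` to a multiple of `e`
  have hAe : A *ᵥ e = 0 := by
    obtain ⟨s, t, h⟩ := hdec _ (hst A hA e heI)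
    by_cases hs : s = 0
    · rw [hs, zero_smul, zero_add] at h
      have hene : e ≠ 0 := hf0
      have := CLB_nilp (hnil A hA) h hene
      rw [this, zero_smul] at h
      exact h
    · exfalso
      -- A is invertible on I, contradiction with nilpotency
      obtain ⟨k, hk⟩ := hnil A hA
      have hinj : ∀ v ∈ I, A *ᵥ v = 0 → v = 0 := by
        intro v hv h0
        obtain ⟨a, b, rfl⟩ := hdec v hv
        rw [Matrix.mulVec_add, Matrix.mulVec_smul, Matrix.mulVec_smul, h, ← he, smul_add, smul_smul, smul_smul] at h0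
        rw [LinearIndependent.pair_iff] at hli
        have h1 := hli (b * s) (a + b * t) (by
          rw [add_smul, ← h0]; abel)
        have hb : b = 0 := by
          rcases mul_eq_zero.mp h1.1 with h2 | h2
          · exact h2
          · exact absurd h2 hs
        have ha : a = 0 := by
          have := h1.2
          rw [hb, zero_mul, add_zero] at this
          exact this
        rw [ha, hb, zero_smul, zero_smul, add_zero]
      have hj : ∀ j : ℕ, ∀ v ∈ I, (A ^ j) *ᵥ v = 0 → v = 0 := by
        intro j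
        induction j with
        | zero => intro v _ h0; simpa using h0
        | succ j ih =>
          intro v hv h0
          rw [pow_succ, ← Matrix.mulVec_mulVec] at h0
          exact hinj v hv (ih _ (hst A hA v hv) h0)
      have hfz := hj k f hf (by rw [hk, Matrix.zero_mulVec])
      apply hf0
      rw [he, hfz, Matrix.mulVec_zero]
  have hYe : ∀ Y ∈ W, Y *ᵥ e = 0 := by
    intro Y hY
    obtain ⟨s, t, h⟩ := hdec _ (hst Y hY e heI)
    have h1 : A *ᵥ (Y *ᵥ e) = 0 := by
      rw [Matrix.mulVec_mulVec, hcom A hA Y hY, ← Matrix.mulVec_mulVec, hAe, Matrix.mulVec_zero]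
    rw [h, Matrix.mulVec_add, Matrix.mulVec_smul, Matrix.mulVec_smul, hAe, smul_zero, add_zero, ← he] at h1
    have hs : s = 0 := (smul_eq_zero.mp h1).resolve_right hf0
    rw [hs, zero_smul, zero_add] at h
    have h2 := CLB_nilp (hnil Y hY) h hf0
    rw [h2, zero_smul] at h
    exact h
  have hYf : ∀ Y ∈ W, ∃ y : ℚ, Y *ᵥ f = y • e := by
    intro Y hY
    obtain ⟨s, t, h⟩ := hdec _ (hst Y hY f hf)
    refine ⟨t, ?_⟩
    have hs : s = 0 := by
      by_contra hs
      -- Y (Y f) = s Y f
      have h1 : Y *ᵥ (Y *ᵥ f) = s • (Y *ᵥ f) := by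
        conv_lhs => rw [h]
        rw [Matrix.mulVec_add, Matrix.mulVec_smul, Matrix.mulVec_smul, hYe Y hY, smul_zero, add_zero]
      have h2 : Y *ᵥ f ≠ 0 := by
        intro h0
        rw [h0] at h
        rw [LinearIndependent.pair_iff] at hli
        exact hs (hli s t h.symm).1
      exact hs (CLB_nilp (hnil Y hY) h1 h2)
    rw [h, hs, zero_smul, zero_add]
  -- choose `Y` not a multiple of `A`
  obtain ⟨Y, hY, hYA⟩ : ∃ Y ∈ W, ∀ c : ℚ, Y ≠ c • A := by
    by_contra hcon
    push Not at hcon
    have h1 : W ≤ Submodule.span ℚ {A} := by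
      intro Y hY
      obtain ⟨c, hc⟩ := hcon Y hY
      rw [hc]
      exact Submodule.smul_mem _ _ (Submodule.mem_span_singleton_self A)
    have h2 := Submodule.finrank_mono h1
    have h3 : finrank ℚ (Submodule.span ℚ {A}) ≤ 1 := by
      have := finrank_span_le_card (R := ℚ) ({A} : Set (MQ n))
      simpa using this
    omega
  obtain ⟨y, hy⟩ := hYf Y hY
  refine ⟨Y - y • A, W.sub_mem hY (W.smul_mem _ hA), fun h => hYA y (sub_eq_zero.mp h), ?_⟩
  intro v hv
  obtain ⟨s, t, rfl⟩ := hdec v hv
  rw [Matrix.sub_mulVec, Matrix.smul_mulVec, Matrix.mulVec_add, Matrix.mulVec_smul, Matrix.mulVec_smul, hy,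
    Matrix.mulVec_add, Matrix.mulVec_smul, Matrix.mulVec_smul, hYe Y hY, hAe, ← he]
  simp only [smul_zero, add_zero]
  rw [smul_comm, sub_self]

end Pool.Agent.VA
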