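import Pool.Agent.helper38.VA.Spec

/-!
va:KUE the K-type theorem for groups: subgroups of the abelian group `Hom(V / K, E)`, `dim E = dim (V / K) = 2`.
-/

set_option autoImplicit false

namespace Pool.Agent.VA

open Matrix Module Pool.Agent.PR Pool.Agent.H48SL

theorem KUE_stdM_inj {n : ℕ} {a b : SLZ n} (h : stdM ℚ a = stdM ℚ b) : a = b := by
  apply SL_ext
  ext i j
  have h1 := congrFun (congrFun h i) j
  simpa [stdM] using h1

/-- `a` acts trivially on `K` and on `V / E` -/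
def InU {n : ℕ} (E K : Submodule ℚ (Fin n → ℚ)) (a : SLZ n) : Prop :=
  (∀ v ∈ K, stdM ℚ a *ᵥ v = v) ∧ ∀ v, stdM ℚ a *ᵥ v - v ∈ E

/-- **KUE** (from LGS, FIT, EIG, C2, F3, KTH). `N = {a ∈ H : InU E K a}`. -/
def KUE_stmt : Prop := ∀ (n : ℕ), 3 ≤ n → ∀ H : Subgroup (SLZ n), ZDense H →
  ∀ E K : Submodule ℚ (Fin n → ℚ), finrank ℚ E = 2 → finrank ℚ K + 2 = n → E ≤ K →
  ∀ b ∈ H, Sta b E → Sta b K → (∃ a ∈ H, a ≠ 1 ∧ InU E K a) →
  (∀ a ∈ H, InU E K a → a ≠ 1 → ∀ j : ℕ, 0 < j → b ^ j * a ≠ a * b ^ j) → H.FiniteIndex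

theorem KUE_one {n : ℕ} (E K : Submodule ℚ (Fin n → ℚ)) : InU E K 1 := by
  refine ⟨fun v _ => ?_, fun v => ?_⟩
  · rw [stdM_one, Matrix.one_mulVec]
  · rw [stdM_one, Matrix.one_mulVec, sub_self]; exact E.zero_mem

theorem KUE_prod {n : ℕ} {E K : Submodule ℚ (Fin n → ℚ)} (hEK : E ≤ K) {a a' : SLZ n} (ha : InU E K a)
    (ha' : InU E K a') : stdM ℚ (a * a') = stdM ℚ a + stdM ℚ a' - 1 := by
  rw [stdM_mul]
  apply Matrix.toLin'.injective
  apply LinearMap.ext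
  intro v
  simp only [Matrix.toLin'_apply, Matrix.sub_mulVec, Matrix.add_mulVec, Matrix.one_mulVec]
  rw [← Matrix.mulVec_mulVec]
  have h1 := ha.1 _ (hEK (ha'.2 v))
  rw [Matrix.mulVec_sub] at h1
  rw [sub_eq_iff_eq_add] at h1
  rw [h1]
  abel

theorem KUE_mul {n : ℕ} {E K : Submodule ℚ (Fin n → ℚ)} (hEK : E ≤ K) {a a' : SLZ n} (ha : InU E K a)
    (ha' : InU E K a') : InU E K (a * a') := by
  refine ⟨fun v hv => ?_, fun v => ?_⟩
  · rw [stdM_mul, ← Matrix.mulVec_mulVec, ha'.1 v hv, ha.1 v hv]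
  · rw [KUE_prod hEK ha ha', Matrix.sub_mulVec, Matrix.add_mulVec, Matrix.one_mulVec]
    have := E.add_mem (ha.2 v) (ha'.2 v)
    convert! this using 1
    abel

theorem KUE_inv {n : ℕ} {E K : Submodule ℚ (Fin n → ℚ)} {a : SLZ n} (ha : InU E K a) :
    InU E K a⁻¹ := by
  refine ⟨fun v hv => ?_, fun v => ?_⟩
  · have h1 := ha.1 v hv
    calc stdM ℚ a⁻¹ *ᵥ v = stdM ℚ a⁻¹ *ᵥ (stdM ℚ a *ᵥ v) := by rw [h1]
      _ = v := by rw [Matrix.mulVec_mulVec, stdM_inv_mul, Matrix.one_mulVec]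
  · have h1 := ha.2 (stdM ℚ a⁻¹ *ᵥ v)
    rw [Matrix.mulVec_mulVec, stdM_mul_inv, Matrix.one_mulVec] at h1
    have h2 := E.neg_mem h1
    rwa [neg_sub] at h2

/-- the subgroup of `H` acting trivially on `K` and `V / E` -/
def KUE_N {n : ℕ} {E K : Submodule ℚ (Fin n → ℚ)} (hEK : E ≤ K) (H : Subgroup (SLZ n)) : Subgroup (SLZ n) where
  carrier := {a | a ∈ H ∧ InU E K a}
  mul_mem' := fun ha hb => ⟨H.mul_mem ha.1 hb.1, KUE_mul hEK ha.2 hb.2⟩
  one_mem' := ⟨H.one_mem, KUE_one E K⟩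
  inv_mem' := fun ha => ⟨H.inv_mem ha.1, KUE_inv ha.2⟩

theorem KUE_sta_inv {n : ℕ} {b : SLZ n} {I : Submodule ℚ (Fin n → ℚ)} (h : Sta b I) : Sta b⁻¹ I := by
  intro v hv
  set f : (Fin n → ℚ) →ₗ[ℚ] (Fin n → ℚ) := Matrix.toLin' (stdM ℚ b) with hf
  have hmap : I.map f ≤ I := by
    rintro _ ⟨w, hw, rfl⟩
    rw [hf, Matrix.toLin'_apply]
    exact h w hw
  have hinj : Function.Injective f := by
    intro x y hxy
    rw [hf, Matrix.toLin'_apply, Matrix.toLin'_apply] at hxy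
    have := congrArg (fun w => stdM ℚ b⁻¹ *ᵥ w) hxy
    simpa [Matrix.mulVec_mulVec, stdM_inv_mul] using this
  have heq : I.map f = I := by
    apply Submodule.eq_of_le_of_finrank_eq hmap
    exact (Submodule.equivMapOfInjective f hinj I).finrank_eq.symm
  rw [← heq] at hv
  obtain ⟨w, hw, rfl⟩ := hv
  rw [hf, Matrix.toLin'_apply, Matrix.mulVec_mulVec, stdM_inv_mul, Matrix.one_mulVec]
  exact hw

theorem KUE_conj {n : ℕ} {E K : Submodule ℚ (Fin n → ℚ)} {b : SLZ n} (hE : Sta b E) (hK : Sta b K)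
    {a : SLZ n} (ha : InU E K a) : InU E K (b * a * b⁻¹) := by
  have hK' := KUE_sta_inv hK
  refine ⟨fun v hv => ?_, fun v => ?_⟩
  · rw [stdM_mul, stdM_mul, ← Matrix.mulVec_mulVec, ← Matrix.mulVec_mulVec, ha.1 _ (hK' v hv),
      Matrix.mulVec_mulVec, stdM_mul_inv, Matrix.one_mulVec]
  · have h1 := hE _ (ha.2 (stdM ℚ b⁻¹ *ᵥ v))
    have h3 : stdM ℚ b *ᵥ (stdM ℚ b⁻¹ *ᵥ v) = v := by
      rw [Matrix.mulVec_mulVec, stdM_mul_inv, Matrix.one_mulVec]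
    rw [Matrix.mulVec_sub, h3] at h1
    rw [stdM_mul, stdM_mul, ← Matrix.mulVec_mulVec, ← Matrix.mulVec_mulVec]
    exact h1

theorem KUE_sq {n : ℕ} {E K : Submodule ℚ (Fin n → ℚ)} (hEK : E ≤ K) {a : SLZ n} (ha : InU E K a) :
    (stdM ℚ a - 1) ^ 2 = 0 := by
  apply Matrix.toLin'.injective
  apply LinearMap.ext
  intro v
  rw [pow_two, Matrix.toLin'_apply, ← Matrix.mulVec_mulVec]
  have h1 := ha.1 _ (hEK (ha.2 v))
  have h2 : (stdM ℚ a - 1) *ᵥ v = stdM ℚ a *ᵥ v - v := by rw [Matrix.sub_mulVec, Matrix.one_mulVec]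
  rw [h2, Matrix.sub_mulVec, Matrix.one_mulVec, h1, sub_self]
  simp

theorem KUE_exp_sq {n : ℕ} {X : MQ n} (h : X ^ 2 = 0) : IsNilpotent.exp X = 1 + X := by
  rw [IsNilpotent.exp_eq_sum h]
  simp [Finset.sum_range_succ]

/-- elements of the Lie algebra kill `K` and map to `E` -/
theorem KUE_lie (hC2 : C2_stmt) {n : ℕ} {E K : Submodule ℚ (Fin n → ℚ)} (hEK : E ≤ K) {H : Subgroup (SLZ n)}
    {X : MQ n} (hX : IsNilpotent X) {k : ℕ} (hk : 0 < k) (h : EX (KUE_N hEK H) ((k : ℚ) • X)) :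
    (∀ v ∈ K, X *ᵥ v = 0) ∧ ∀ v, X *ᵥ v ∈ E := by
  obtain ⟨a, ha, hae⟩ := h
  obtain ⟨lg, h1, h2⟩ := hC2 n ℚ
  have hsq := KUE_sq hEK ha.2
  have hnil : IsNilpotent (stdM ℚ a - 1) := ⟨2, hsq⟩
  have e1 : IsNilpotent.exp (stdM ℚ a - 1) = stdM ℚ a := by
    rw [KUE_exp_sq hsq]; abel
  have e2 : (k : ℚ) • X = stdM ℚ a - 1 := by
    rw [← h2 _ hnil, e1, hae, h2 _ (hX.smul _)]
  have hk0 : (k : ℚ) ≠ 0 := by positivity
  have e3 : X = (k : ℚ)⁻¹ • (stdM ℚ a - 1) := by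
    rw [← e2, smul_smul, inv_mul_cancel₀ hk0, one_smul]
  refine ⟨fun v hv => ?_, fun v => ?_⟩
  · rw [e3, Matrix.smul_mulVec, Matrix.sub_mulVec, Matrix.one_mulVec, ha.2.1 v hv, sub_self, smul_zero]
  · rw [e3, Matrix.smul_mulVec, Matrix.sub_mulVec, Matrix.one_mulVec]
    exact E.smul_mem _ (ha.2.2 v)

theorem KUE_comm {n : ℕ} {E K : Submodule ℚ (Fin n → ℚ)} (hEK : E ≤ K) {H : Subgroup (SLZ n)}
    {a a' : SLZ n} (ha : a ∈ KUE_N hEK H) (ha' : a' ∈ KUE_N hEK H) : a * a' = a' * a := by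
  have h : stdM ℚ (a * a') = stdM ℚ (a' * a) := by
    rw [KUE_prod hEK ha.2 ha'.2, KUE_prod hEK ha'.2 ha.2]
    abel
  exact KUE_stdM_inj h

theorem KUE_exp_comm {n : ℕ} {X Y : MQ n} (h : X * Y = Y * X) : X * IsNilpotent.exp Y = IsNilpotent.exp Y * X := by
  have h1 : Commute X (IsNilpotent.exp Y) := by
    unfold IsNilpotent.exp
    apply Commute.sum_right
    intro i _
    apply Commute.smul_right
    exact Commute.pow_right h i
  exact h1

theorem KUE_fix {n : ℕ} {c a : SLZ n} {X : MQ n} {t : ℚ} (ha : stdM ℚ a = IsNilpotent.exp (t • X))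
    (h : cj c X = X) : c * a = a * c := by
  have h1 : stdM ℚ c * X = X * stdM ℚ c := by
    rw [cj_apply] at h
    calc stdM ℚ c * X = stdM ℚ c * X * (stdM ℚ c⁻¹ * stdM ℚ c) := by
          rw [stdM_inv_mul, Matrix.mul_one]
      _ = (stdM ℚ c * X * stdM ℚ c⁻¹) * stdM ℚ c := by simp only [mul_assoc]
      _ = X * stdM ℚ c := by rw [h]
  apply KUE_stdM_inj
  rw [stdM_mul, stdM_mul, ha]
  apply KUE_exp_comm
  rw [Matrix.mul_smul, Matrix.smul_mul, h1]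

theorem KUE_exp_ne {n : ℕ} (hC2 : C2_stmt) {X : MQ n} (hX : IsNilpotent X) (h0 : X ≠ 0) :
    IsNilpotent.exp X ≠ 1 := by
  intro h
  obtain ⟨lg, h1, h2⟩ := hC2 n ℚ
  apply h0
  rw [← h2 X hX, h, ← h2 0 IsNilpotent.zero, IsNilpotent.exp_zero]

theorem KUE_clear {m k : ℕ} (A : Matrix (Fin m) (Fin k) ℚ) : ∃ (N : ℚ) (B : Matrix (Fin m) (Fin k) ℤ),
    N ≠ 0 ∧ cq B = N • A := by
  obtain ⟨b, hb⟩ := IsLocalization.exist_integer_multiples_of_finite (nonZeroDivisors ℤ)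
    (fun x : Fin m × Fin k => A x.1 x.2)
  choose B hB using fun i j => hb (i, j)
  refine ⟨((b : ℤ) : ℚ), Matrix.of B, ?_, ?_⟩
  · exact_mod_cast nonZeroDivisors.coe_ne_zero b
  · ext i j
    have := hB i j
    simp only [algebraMap_int_eq, eq_intCast, zsmul_eq_mul] at this
    simpa [cq] using this

theorem KUE_cq_mul {m k l : ℕ} (A : Matrix (Fin m) (Fin k) ℤ) (B : Matrix (Fin k) (Fin l) ℤ) :
    cq (A * B) = cq A * cq B := by
  unfold cq
  rw [Matrix.map_mul]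

theorem KUE_cq_inj {m k : ℕ} {A B : Matrix (Fin m) (Fin k) ℤ} (h : cq A = cq B) : A = B := by
  ext i j
  have h1 := congrFun (congrFun h i) j
  simpa [cq] using h1

theorem KUE_RS {n : ℕ} (E K : Submodule ℚ (Fin n → ℚ)) (hE : finrank ℚ E = 2) (hK : finrank ℚ K + 2 = n) (hEK : E ≤ K) :
    ∃ (R : Matrix (Fin 2) (Fin n) ℤ) (S : Matrix (Fin n) (Fin 2) ℤ) (R' : Matrix (Fin n) (Fin 2) ℚ)
      (S' : Matrix (Fin 2) (Fin n) ℚ), R * S = 0 ∧ cq R * R' = 1 ∧ S' * cq S = 1 ∧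
      (∀ v, v ∈ E → ∃ w, v = cq S *ᵥ w) ∧ (∀ v, cq R *ᵥ v = 0 → v ∈ K) := by
  -- the map with range `E`
  have hE2 : finrank ℚ (Fin 2 → ℚ) = finrank ℚ E := by rw [hE]; simp
  set σe : (Fin 2 → ℚ) ≃ₗ[ℚ] E := LinearEquiv.ofFinrankEq _ _ hE2 with hσe
  set σ : (Fin 2 → ℚ) →ₗ[ℚ] (Fin n → ℚ) := E.subtype ∘ₗ σe.toLinearMap with hσ
  have hσinj : Function.Injective σ := by
    intro x y hxy
    apply σe.injective
    apply Subtype.ext
    exact hxy
  obtain ⟨σ', hσ'⟩ := σ.exists_leftInverse_of_injective (LinearMap.ker_eq_bot.mpr hσinj)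
  have hq : finrank ℚ ((Fin n → ℚ) ⧸ K) = finrank ℚ (Fin 2 → ℚ) := by
    have h1 := K.finrank_quotient_add_finrank
    simp only [finrank_fintype_fun_eq_card, Fintype.card_fin] at h1 ⊢
    omega
  set ρe : ((Fin n → ℚ) ⧸ K) ≃ₗ[ℚ] (Fin 2 → ℚ) := LinearEquiv.ofFinrankEq _ _ hq with hρe
  set ρ : (Fin n → ℚ) →ₗ[ℚ] (Fin 2 → ℚ) := ρe.toLinearMap ∘ₗ K.mkQ with hρ
  have hρker : ∀ v, ρ v = 0 ↔ v ∈ K := by
    intro v
    rw [hρ, LinearMap.comp_apply, LinearEquiv.coe_coe, LinearEquiv.map_eq_zero_iff, Submodule.mkQ_apply,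
      Submodule.Quotient.mk_eq_zero]
  have hρsur : Function.Surjective ρ := by
    rw [hρ, LinearMap.coe_comp]
    exact ρe.surjective.comp K.mkQ_surjective
  obtain ⟨ρ', hρ'⟩ := ρ.exists_rightInverse_of_surjective (LinearMap.range_eq_top.mpr hρsur)
  obtain ⟨N, S, hN, hS⟩ := KUE_clear (LinearMap.toMatrix' σ)
  obtain ⟨M, R, hM, hR⟩ := KUE_clear (LinearMap.toMatrix' ρ)
  refine ⟨R, S, M⁻¹ • LinearMap.toMatrix' ρ', N⁻¹ • LinearMap.toMatrix' σ', ?_, ?_, ?_, ?_, ?_⟩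
  · apply KUE_cq_inj
    rw [KUE_cq_mul, hR, hS, Matrix.smul_mul, Matrix.mul_smul, ← LinearMap.toMatrix'_comp]
    have h1 : ρ ∘ₗ σ = 0 := by
      apply LinearMap.ext
      intro w
      rw [LinearMap.comp_apply, LinearMap.zero_apply, hρker]
      exact hEK (σe w).2
    rw [h1]
    simp [cq]
  · rw [hR, Matrix.smul_mul, Matrix.mul_smul, ← LinearMap.toMatrix'_comp, hρ', LinearMap.toMatrix'_id, smul_smul,
      mul_inv_cancel₀ hM, one_smul]
  · rw [hS, Matrix.smul_mul, Matrix.mul_smul, ← LinearMap.toMatrix'_comp, hσ', LinearMap.toMatrix'_id, smul_smul,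
      inv_mul_cancel₀ hN, one_smul]
  · intro v hv
    refine ⟨N⁻¹ • σe.symm ⟨v, hv⟩, ?_⟩
    rw [hS, Matrix.smul_mulVec, Matrix.mulVec_smul, smul_smul, mul_inv_cancel₀ hN, one_smul,
      LinearMap.toMatrix'_mulVec, hσ, LinearMap.comp_apply, LinearEquiv.coe_coe, LinearEquiv.apply_symm_apply]
    rfl
  · intro v hv
    rw [hR, Matrix.smul_mulVec, LinearMap.toMatrix'_mulVec] at hv
    rw [← hρker]
    exact (smul_eq_zero.mp hv).resolve_left hM

theorem KUE_rank_zero {n : ℕ} {X : MQ n} (h : X.rank = 0) : X = 0 := by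
  rw [Matrix.rank, Submodule.finrank_eq_zero, LinearMap.range_eq_bot] at h
  ext i j
  have h7 := congrFun (LinearMap.congr_fun h (Pi.single j 1)) i
  simpa using h7

theorem KUE_rank_le_one {x : M2} (h : x.det = 0) : x.rank ≤ 1 := by
  obtain ⟨v, hv, hxv⟩ := Matrix.exists_mulVec_eq_zero_iff.mpr h
  have h1 := x.mulVecLin.finrank_range_add_finrank_ker
  have h2 : 0 < finrank ℚ (LinearMap.ker x.mulVecLin) := by
    rw [Nat.pos_iff_ne_zero, Ne, Submodule.finrank_eq_zero]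
    intro hb
    apply hv
    have : v ∈ LinearMap.ker x.mulVecLin := by
      rw [LinearMap.mem_ker, Matrix.mulVecLin_apply]; exact hxv
    rw [hb] at this
    exact (Submodule.mem_bot ℚ).mp this
  rw [Matrix.rank]
  simp only [finrank_fintype_fun_eq_card, Fintype.card_fin] at h1
  omega

/-- the K-type from the two subspaces -/
theorem KUE_KT {n : ℕ} {E K : Submodule ℚ (Fin n → ℚ)} (hE : finrank ℚ E = 2) (hK : finrank ℚ K + 2 = n)
    (hEK : E ≤ K) (W : Submodule ℚ (MQ n)) (hW : ∀ X ∈ W, (∀ v ∈ K, X *ᵥ v = 0) ∧ ∀ v, X *ᵥ v ∈ E)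
    (hr : ∀ X ∈ W, X.rank ≠ 1) : ∃ (R : Matrix (Fin 2) (Fin n) ℤ) (S : Matrix (Fin n) (Fin 2) ℤ), KT W R S := by
  obtain ⟨R, S, R', S', h1, h2, h3, h4, h5⟩ := KUE_RS E K hE hK hEK
  refine ⟨R, S, h1, ⟨R', h2⟩, ⟨S', h3⟩, ?_, ?_⟩
  · intro X hX
    refine ⟨S' * X * R', ?_⟩
    have e1 : cq S * S' * X = X := by
      apply Matrix.toLin'.injective
      apply LinearMap.ext
      intro v
      rw [Matrix.toLin'_apply, Matrix.toLin'_apply, ← Matrix.mulVec_mulVec]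
      obtain ⟨w, hw⟩ := h4 _ ((hW X hX).2 v)
      rw [hw, Matrix.mulVec_mulVec, Matrix.mul_assoc, h3, Matrix.mul_one]
    have e2 : X * R' * cq R = X := by
      apply Matrix.toLin'.injective
      apply LinearMap.ext
      intro v
      rw [Matrix.toLin'_apply, Matrix.toLin'_apply, Matrix.mul_assoc, ← Matrix.mulVec_mulVec]
      have h6 : (R' * cq R) *ᵥ v - v ∈ K := by
        apply h5
        rw [Matrix.mulVec_sub, Matrix.mulVec_mulVec, ← Matrix.mul_assoc, h2, Matrix.one_mul, sub_self]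
      have h7 := (hW X hX).1 _ h6
      rw [Matrix.mulVec_sub, sub_eq_zero] at h7
      exact h7
    calc X = cq S * S' * (X * R' * cq R) := by rw [e2, e1]
      _ = cq S * (S' * X * R') * cq R := by simp only [Matrix.mul_assoc]
  · intro x hx hx0 hdet
    apply hr _ hx
    have h6 := KUE_rank_le_one hdet
    have h7 : (cq S * x * cq R).rank ≤ 1 :=
      (Matrix.rank_mul_le_left _ _).trans ((Matrix.rank_mul_le_right _ _).trans h6)
    have h8 : (cq S * x * cq R).rank ≠ 0 := by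
      intro h
      have h9 : cq S * x * cq R = 0 := KUE_rank_zero h
      apply hx0
      calc x = (S' * cq S) * x * (cq R * R') := by rw [h3, h2, Matrix.one_mul, Matrix.mul_one]
        _ = S' * (cq S * x * cq R) * R' := by simp only [Matrix.mul_assoc]
        _ = 0 := by rw [h9, Matrix.mul_zero, Matrix.zero_mul]
    omega

theorem KUE (hC2 : C2_stmt) (hLGS : LGS_stmt) (hFIT : FIT_stmt) (hEIG : EIG_stmt) (hF3 : F3_stmt)
    (hKTH : KTH_stmt) : KUE_stmt := by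
  intro n hn H hH E K hE hK hEK b hb hbE hbK ⟨a0, ha0, ha01, ha0U⟩ hfix
  have hNu : ∀ a ∈ KUE_N hEK H, IsNilpotent (stdM ℚ a - 1) := fun a ha => ⟨2, KUE_sq hEK ha.2⟩
  have hNc : ∀ a ∈ KUE_N hEK H, ∀ a' ∈ KUE_N hEK H, a * a' = a' * a := fun a ha a' ha' => KUE_comm hEK ha ha'
  have hbN : ∀ a ∈ KUE_N hEK H, b * a * b⁻¹ ∈ KUE_N hEK H := fun a ha =>
    ⟨H.mul_mem (H.mul_mem hb ha.1) (H.inv_mem hb), KUE_conj hbE hbK ha.2⟩
  obtain ⟨U, U1, U2, U3, U4, U5⟩ := hLGS n (KUE_N hEK H) hNu hNc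
  have hsta : ∀ X ∈ U, cj b X ∈ U := U5 b hbN
  -- no nonzero element of `U` is fixed by a power of `b`
  have hnf : ∀ j : ℕ, 0 < j → ∀ X ∈ U, ((cj b) ^ j) X = X → X = 0 := by
    intro j hj X hX hX2
    by_contra h0
    obtain ⟨k, hk, a, ha, hae⟩ := U3 X hX
    rw [← cj_pow] at hX2
    have h1 := KUE_fix hae hX2
    refine hfix a ha.1 ha.2 ?_ j hj h1
    rintro rfl
    have hk0 : (k : ℚ) ≠ 0 := by positivity
    exact KUE_exp_ne hC2 ((U1 X hX).smul _) (smul_ne_zero hk0 h0) (by rw [← hae, stdM_one])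
  obtain ⟨X0, hX0, hX0e⟩ := U4 a0 ⟨ha0, ha0U⟩
  have hX00 : X0 ≠ 0 := by
    rintro rfl
    rw [IsNilpotent.exp_zero] at hX0e
    exact ha01 (KUE_stdM_inj (by rw [hX0e, stdM_one]))
  rcases hFIT (MQ n) (cj b) U hsta (fun j hj => ⟨X0, hX0, fun h => hX00 (hnf j hj X0 hX0 h)⟩) with
    ⟨j, hj, x, hx, hy0, hy⟩ | ⟨i, W, hi, hWU, hW0, hWs, hWf, hWi⟩
  · exfalso
    apply hy0
    apply hnf j hj _ _ hy
    refine U.sub_mem ?_ hx
    have : ∀ j : ℕ, ((cj b) ^ j) x ∈ U := by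
      intro j
      induction j with
      | zero => simpa using hx
      | succ j ih => rw [pow_succ']; exact hsta _ ih
    exact this j
  have htwo : 2 ≤ finrank ℚ W := by
    by_contra hlt
    have h1 : finrank ℚ W ≠ 0 := by
      rw [Ne, Submodule.finrank_eq_zero]
      exact hW0
    have h2 : finrank ℚ W = 1 := by omega
    obtain ⟨⟨X, hX⟩, hXne, hXs⟩ := finrank_eq_one_iff'.mp h2
    obtain ⟨c, hc⟩ := hXs ⟨((cj b) ^ i) X, hWs X hX⟩
    have hc' : cj (b ^ i) X = c • X := by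
      rw [cj_pow]
      exact (congrArg Subtype.val hc).symm
    have hX0' : X ≠ 0 := by
      intro h
      apply hXne
      exact Subtype.ext h
    have hcc := (hEIG n (b ^ i) c).2.2 X hX0' hc'
    apply hX0'
    apply hnf (i + i) (by omega) X (hWU hX)
    rw [pow_add]
    change ((cj b) ^ i) (((cj b) ^ i) X) = X
    rw [← cj_pow, hc', map_smul, hc', smul_smul]
    rcases hcc with rfl | rfl
    · simp
    · simp
  have hSI : SI H W (b ^ i) := by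
    refine ⟨H.pow_mem hb i, htwo, fun X hX => U1 X (hWU hX), fun X hX Y hY => U2 X (hWU hX) Y (hWU hY), ?_, ?_, ?_⟩
    · intro X hX
      obtain ⟨k, hk, a, ha, hae⟩ := U3 X (hWU hX)
      exact ⟨k, hk, a, ha.1, hae⟩
    · intro X hX
      rw [cj_pow]
      exact hWs X hX
    · intro j hj W' hW' hW'0 hW's
      apply hWi j hj W' hW' hW'0
      intro X hX
      have := hW's X hX
      rwa [← pow_mul, cj_pow] at this
  by_cases hr : ∃ X ∈ W, X.rank = 1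
  · exact hF3 n hn H hH W hSI.two hSI.nil hSI.com hSI.log hr
  push Not at hr
  have hW : ∀ X ∈ W, (∀ v ∈ K, X *ᵥ v = 0) ∧ ∀ v, X *ᵥ v ∈ E := by
    intro X hX
    obtain ⟨k, hk, h⟩ := U3 X (hWU hX)
    exact KUE_lie hC2 hEK (U1 X (hWU hX)) hk h
  obtain ⟨R, S, hKT⟩ := KUE_KT hE hK hEK W hW hr
  exact hKTH n hn H hH W (b ^ i) R S hSI hKT

end Pool.Agent.VA
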