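import Pool.Agent.helper38.VA.Spec

/-!
va:VTH assembly of the theorem for subgroups of `SL(n, ℤ)`.
-/

set_option autoImplicit false

namespace Pool.Agent.VA

open Matrix Module Pool.Agent.PR Pool.Agent.H48SL

theorem VTH_HIn_mono {G : Type} [Group G] {P H : Subgroup G} (h : P ≤ H) (hP : HIn P) : HIn H := by
  obtain ⟨x, hx, y, hy, z, hz, r⟩ := hP
  exact ⟨x, h hx, y, h hy, z, h hz, r⟩

theorem VTH_three (hCL3 : CL3_stmt) (hF3 : F3_stmt) (H : Subgroup (SLZ 3)) (hH : ZDense H)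
    (W : Submodule ℚ (MQ 3)) (b : SLZ 3) (hSI : SI H W b) : H.FiniteIndex :=
  hF3 3 le_rfl H hH W hSI.two hSI.nil hSI.com hSI.log (hCL3 H W b hSI)

theorem VTH_four (hF3 : F3_stmt) (hCLN : CLN_stmt) (hCLK : CLK_stmt)
    (hCLD : CLD_stmt) (hCLE : CLE_stmt) (hKTH : KTH_stmt) (hDTH : DTH_stmt) (H : Subgroup (SLZ 4))
    (hH : ZDense H) (W : Submodule ℚ (MQ 4)) (b : SLZ 4) (hSI : SI H W b) : H.FiniteIndex := by
  by_cases hr : ∃ X ∈ W, X.rank = 1
  · exact hF3 4 (by norm_num) H hH W hSI.two hSI.nil hSI.com hSI.log hr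
  push Not at hr
  have h1 : WI W ⊤ < ⊤ := by
    refine hCLN 4 W hSI.nil hSI.com ⊤ ?_ (fun X _ v _ => Submodule.mem_top)
    exact top_ne_bot
  have h2 : finrank ℚ (WI W ⊤) < 4 := by
    have := Submodule.finrank_lt (ne_of_lt h1)
    simpa using this
  obtain ⟨X, hX, hX0⟩ : ∃ X ∈ W, X ≠ 0 := by
    by_contra hcon
    push Not at hcon
    have hW : W = ⊥ := by
      rw [eq_bot_iff]
      intro X hX
      exact hcon X hX
    have := hSI.two
    rw [hW, finrank_bot] at this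
    omega
  have h3 : X.rank ≤ finrank ℚ (WI W ⊤) := by
    rw [Matrix.rank]
    apply Submodule.finrank_mono
    rintro _ ⟨v, rfl⟩
    exact Submodule.subset_span ⟨X, hX, v, Submodule.mem_top, rfl⟩
  have h4 : X.rank ≠ 0 := by
    intro h
    rw [Matrix.rank, Submodule.finrank_eq_zero, LinearMap.range_eq_bot] at h
    apply hX0
    ext i j
    have h7 := congrFun (LinearMap.congr_fun h (Pi.single j 1)) i
    simpa using h7
  have h5 := hr X hX
  have h6 : finrank ℚ (WI W ⊤) = 2 ∨ finrank ℚ (WI W ⊤) = 3 := by omega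
  rcases h6 with h6 | h6
  · obtain ⟨R, S, hK⟩ := hCLK H W b hSI hr h6
    exact hKTH 4 (by norm_num) H hH W b R S hSI hK
  · obtain ⟨k, φ, hk, hφ, hφk, hd, a1, a2, a3, a4, a5⟩ := hCLD H W b hSI hr h6
    have han := hCLE 4 H W b hSI k φ hk hφ hd a1 a2 a3 a4 a5
    exact hDTH H hH W b k φ hSI ⟨hk, hφ, hφk, hd, a1, a2, a3, a4, han⟩

theorem VTH (hSOL : SOL_stmt) (hSIE : SIE_stmt) (hF2 : F2_stmt) (hF3 : F3_stmt) (hCLN : CLN_stmt)
    (hCL3 : CL3_stmt) (hCLK : CLK_stmt) (hCLD : CLD_stmt) (hCLE : CLE_stmt) (hKTH : KTH_stmt)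
    (hDTH : DTH_stmt) : VTH_stmt := by
  intro n hn3 hn4 H P hH hPH hP hV
  rcases hSOL n P hP hV with h1 | ⟨N, hNP, hNu, hNc, b, hb, hbN, hbj⟩
  · exact hF2 n hn3 hn4 H hH (VTH_HIn_mono hPH h1)
  rcases hSIE n H N b (hNP.trans hPH) (hPH hb) hNu hNc hbN hbj with h2 | ⟨W, b', hSI⟩
  · exact hF2 n hn3 hn4 H hH h2
  obtain rfl | rfl : n = 3 ∨ n = 4 := by omega
  · exact VTH_three hCL3 hF3 H hH W b' hSI
  · exact VTH_four hF3 hCLN hCLK hCLD hCLE hKTH hDTH H hH W b' hSI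

end Pool.Agent.VA
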