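import Pool.Agent.helper48.PR.AsmC
import Pool.Agent.helper48.PR.AsmH
import Pool.Agent.helper48.PR.AsmL
import Pool.Agent.helper5.PR.AsmZ
import Pool.Agent.helper87.VA.CPN
import Pool.Agent.helper28.VA.EIG
import Pool.Agent.helper5.VA.MK
import Pool.Agent.helper78.VA.HSU
import Pool.Agent.helper22.VA.SOL
import Pool.Agent.helper76.VA.LGS
import Pool.Agent.helper92.VA.FIT
import Pool.Agent.helper32.VA.SIE
import Pool.Agent.helper29.VA.LTA
import Pool.Agent.helper47.VA.LTB
import Pool.Agent.helper70.VA.F1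
import Pool.Agent.helper65.VA.F2
import Pool.Agent.helper98.VA.F3
import Pool.Agent.helper18.VA.CLA
import Pool.Agent.helper38.VA.CLB
import Pool.Agent.helper35.VA.CLN
import Pool.Agent.helper16.VA.CL3
import Pool.Agent.helper58.VA.CLK
import Pool.Agent.helper72.VA.CLD
import Pool.Agent.helper91.VA.CLE
import Pool.Agent.helper43.VA.KGN
import Pool.Agent.helper24.VA.KDT
import Pool.Agent.helper45.VA.KCH
import Pool.Agent.helper3.VA.KMM
import Pool.Agent.helper36.VA.KND
import Pool.Agent.helper33.VA.KTH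
import Pool.Agent.helper82.VA.DFM
import Pool.Agent.helper56.VA.DIS
import Pool.Agent.helper95.VA.DGN
import Pool.Agent.helper94.VA.DRT
import Pool.Agent.helper23.VA.DSS
import Pool.Agent.helper48.VA.DPR
import Pool.Agent.helper19.VA.DNR
import Pool.Agent.helper34.VA.DND
import Pool.Agent.helper31.VA.DTH
import Pool.Agent.helper38.VA.VTH
import Pool.Agent.helper38.VA.KUE

/-!
Project va: assembly. `tVTH`: solvable subgroups of thin subgroups of `SL(3, ℤ)`, `SL(4, ℤ)`; `tKUE`: the K-type for all `n`.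
-/

set_option autoImplicit false

namespace Pool.Agent.VA

open Pool.Agent.PR

theorem tEIG : EIG_stmt := EIG CPN
theorem tSOL : SOL_stmt := SOL tZ_MAL (Z_UNIP N_UNI) HSU MK
theorem tLGS : LGS_stmt := LGS C2
theorem tSIE : SIE_stmt := SIE C2 tLGS FIT tEIG
theorem tF1 : F1_stmt := F1 LRK1
theorem tF2 : F2_stmt := F2 tHJ tF1
theorem tF3 : F3_stmt := F3 C2 tF1
theorem tCL3 : CL3_stmt := CL3 CLA CLB CLN
theorem tCLK : CLK_stmt := CLK CLA CLB
theorem tCLD : CLD_stmt := CLD CLA CLB CLN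
theorem tKTH : KTH_stmt := KTH LTA LTB KGN (KDT CPN) KCH KMM (KND tF1)
theorem tDIS : DIS_stmt := DIS tEIG DFM
theorem tDNR : DNR_stmt := DNR tF1
theorem tDTH : DTH_stmt := DTH DGN (DRT DFM tDIS LTA LTB) DSS DPR (DND tF2 tDNR)
theorem tVTH : VTH_stmt := VTH tSOL tSIE tF2 tF3 CLN tCL3 tCLK tCLD CLE tKTH tDTH
theorem tKUE : KUE_stmt := KUE C2 tLGS FIT tEIG tF3 tKTH

end Pool.Agent.VA
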