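import Pool.Agent.helper38.VA.Spec
import Pool.Agent.helper73.BRZ.Spec

/-!
va:VAB the theorem for abstract groups, from the embedding theorem.
-/

set_option autoImplicit false

namespace Pool.Agent.VA

open Matrix Module Pool.Agent.PR Pool.Agent.H48SL

/-- **VAB** (from VTH, LPD, EMB): `n = 3` or `4`, `Λ` finitely generated, residually finite, with the same finite quotients as
`SL(n, ℤ)`, `P ≤ Λ` solvable and not virtually abelian. Then `Λ` is isomorphic to `SL(n, ℤ)`. -/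
def VAB_stmt : Prop := ∀ (n : ℕ), 3 ≤ n → n ≤ 4 → ∀ (Λ : Type) [Group Λ], Group.FG Λ → QuotLe Λ (SLZ n) →
  QuotLe (SLZ n) Λ → RF Λ → ∀ P : Subgroup Λ, Group.IsSolvable P → NVA P → Nonempty (Λ ≃* SLZ n)

theorem VAB_NVA {G G' : Type} [Group G] [Group G'] (R : G →* G') (hR : Function.Injective R) (P : Subgroup G)
    (hP : NVA P) : NVA (P.map R) := by
  intro B hB hc
  have h1 : B.comap R ≤ P := by
    intro x hx
    obtain ⟨y, hy, hxy⟩ := hB hx
    rwa [← hR hxy]
  have h2 := hP (B.comap R) h1 (fun x hx y hy => hR (by rw [map_mul, map_mul]; exact hc _ hx _ hy))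
  have h3 : (B.comap R).map R = B := by
    rw [Subgroup.map_comap_eq]
    apply inf_eq_right.mpr
    intro x hx
    obtain ⟨y, hy, hxy⟩ := hB hx
    exact ⟨y, hxy⟩
  rw [← h3, Subgroup.relIndex_map_map_of_injective _ _ hR]
  exact h2

theorem VAB (hVTH : VTH_stmt) (hLPD : LPD_stmt) (hEMB : Pool.Agent.BRZ.EMB_stmt) : VAB_stmt := by
  intro n hn3 hn4 Λ _ hfg h1 h2 hrf P hP hV
  obtain ⟨R, hR, hd⟩ := hEMB n hn3 Λ hfg h1 h2 hrf
  have hprof : ProfDense R.range := by
    apply hLPD n hn3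
    intro m hm γ
    obtain ⟨l, hl⟩ := hd m hm γ
    exact ⟨R l, ⟨l, rfl⟩, hl⟩
  have hsol : Group.IsSolvable (P.map R) := by
    have := hP
    exact Group.isSolvable_of_surjective (f := R.subgroupMap P) (R.subgroupMap_surjective P)
  have hfi := hVTH n hn3 hn4 R.range (P.map R) hprof.zdense (by
    rintro _ ⟨x, _, rfl⟩
    exact ⟨x, rfl⟩) hsol (VAB_NVA R hR P hV)
  have htop := hprof.eq_top hfi
  exact ⟨MulEquiv.ofBijective R ⟨hR, MonoidHom.range_eq_top.mp htop⟩⟩

end Pool.Agent.VA
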